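import Pool.Agent.Lib.MP_f00570_lc.S.G2
import Pool.Agent.Lib.MP_f00570_lc.C1

/-!
# Every guessing set has a carrier whose trace lies in `N`
-/

namespace Pool.Agent.Lib.MP_f00570_lc

open Pool.Agent.Lib.MP_f9eb18_lc Pool.Agent.Lib.MP_f9eb18_lc.W Ordinal ZFSet
set_option linter.style.haveILetI false
set_option linter.unusedVariables false

variable {N : Set V} {M z : V} [IsZFC N] [ES M] [UC (par M) (fun _ _ => N)] {lam : Ordinal.{0}}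

/-- subsets of `M` in `N` that are indexed by an ordinal contained in `M` are elements of `M` -/
theorem Ctx2.small_mem (h : Ctx2 N M z) (hz : prod lam.toZFSet lam.toZFSet ⊆ z) {d : V}
    {ν : Ordinal.{0}} (hd : d ⊆ M ∩ lam.toZFSet) (hi : InjIn N d ν.toZFSet)
    (hν : ν.toZFSet ∈ M) (hν' : ν.toZFSet ⊆ M) (hle : ν ≤ lam) : d ∈ M := by
  obtain ⟨f, hf, h1, h2⟩ := hi
  have h3 : ∀ t ∈ f, ∃ a ∈ d, ∃ b ∈ ν.toZFSet, t = pair a b := fun t ht => mem_prod.1 (h1.1 ht)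
  obtain ⟨e, he, H⟩ := h.gN f hf fun t ht => by
    obtain ⟨a, ha, b, hb, rfl⟩ := h3 t ht
    exact hz (pair_mem_prod.2 ⟨(mem_inter.1 (hd ha)).2, toZFSet_monotone hle hb⟩)
  haveI : In (M : Set V) e := ⟨he⟩
  haveI : In (M : Set V) ν := ⟨hν⟩
  have h4 := all_of M (fun t => t ∈ e → snd t ∈ ν.toZFSet) fun t ht k => by
    obtain ⟨a, -, b, hb, rfl⟩ := h3 t ((H t ht).1 k)
    rwa [snd_pair]
  have h5 := all_of M (fun t => t ∈ e → ∀ s ∈ e, snd s = snd t → s = t) fun t ht k => by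
    haveI : In (M : Set V) t := ⟨ht⟩
    refine all_of M (fun s => s ∈ e → snd s = snd t → s = t) fun s hs k' j => ?_
    have k1 := (H t ht).1 k
    have k2 := (H s hs).1 k'
    obtain ⟨a, -, b, -, rfl⟩ := h3 t k1
    obtain ⟨a', -, b', -, rfl⟩ := h3 s k2
    rw [snd_pair, snd_pair] at j
    rw [j] at k2 ⊢
    rw [h2 _ _ _ k2 k1]
  have h6 : f = e := by
    ext t
    refine ⟨fun k => ?_, fun k => ?_⟩
    · obtain ⟨a, ha, b, hb, rfl⟩ := h3 t k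
      exact (H _ (c1_pair (mem_inter.1 (hd ha)).1 (hν' hb))).2 k
    · obtain ⟨b, hb⟩ : ∃ b, snd t = b := ⟨_, rfl⟩
      haveI : In (M : Set V) b := ⟨hν' (hb ▸ h4 t k)⟩
      obtain ⟨s, hs, j1, j2⟩ := ex_mem M (fun s => s ∈ e ∧ snd s = b) ⟨t, k, hb⟩
      exact h5 t k s j1 (j2.trans hb.symm) ▸ (H s hs).1 j1
  rw [← (isFunc_iff.1 h1).2.1, h6]
  exact memM M _

theorem Ctx2.carrier (h : Ctx2 N M z) (hl : Reg lam) (hM : lam.toZFSet ∈ M)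
    (hz : lam.toZFSet ⊆ z) (hz2 : prod lam.toZFSet lam.toZFSet ⊆ z) {Z : V} (hZ : Z ∈ N)
    (h1 : Z ⊆ M ∩ lam.toZFSet) (h2 : AccPt Z (M ∩ lam.toZFSet).rank) :
    ∃ e ∈ M, Ecl N lam e ∧ M ∩ e ∈ N := by
  have hlt : ∀ {l ξ : Ordinal.{0}}, ξ < l → ξ.toZFSet ∈ M → ξ < (M ∩ l.toZFSet).rank :=
    fun k1 k2 => by simpa using rank_lt_of_mem (mem_inter.2 ⟨k2, toZFSet_mem_toZFSet_iff.2 k1⟩)
  have hηl : (M ∩ lam.toZFSet).rank ≤ lam := by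
    simpa using rank_mono (fun x hx => (mem_inter.1 hx).2 : M ∩ lam.toZFSet ⊆ lam.toZFSet)
  have hω : ω_ 2 < lam := not_le.1 fun k => hl.1 ⟨_, fun β hβ => sm_iff.2 (d1_lt.1 hβ), k⟩
  have hδ : ∀ ν < (M ∩ (ω_ 2 : Ordinal.{0}).toZFSet).rank,
      ν.toZFSet ∈ M ∧ ν.toZFSet ⊆ M ∧ ν ≤ lam := fun ν hν => by
    obtain ⟨y, hy, k⟩ := ZFSet.lt_rank_iff.1 hν
    obtain ⟨a, ha, rfl⟩ := mem_toZFSet_iff.1 (mem_inter.1 hy).2
    rw [rank_toZFSet] at k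
    have k1 := sm_subset h.om1 (mem_inter.1 hy).1 (sm_iff.2 (d1_lt.1 ha))
    refine ⟨?_, fun x hx => k1 (toZFSet_monotone k hx), k.trans (ha.trans hω).le⟩
    rcases k.eq_or_lt with rfl | k
    · exact (mem_inter.1 hy).1
    · exact k1 (toZFSet_mem_toZFSet_iff.2 k)
  have hδ' := fun ν => hlt (l := ω_ 2) (ξ := ν)
  have hη := fun ν => hlt (l := lam) (ξ := ν)
  generalize (M ∩ (ω_ 2 : Ordinal.{0}).toZFSet).rank = δ at hδ hδ'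
  generalize (M ∩ lam.toZFSet).rank = η at hη hηl h2
  haveI : In N Z := ⟨hZ⟩
  haveI : In N δ := ⟨h.ord δ⟩
  haveI : In N η := ⟨h.ord η⟩
  haveI : In (M : Set V) lam := ⟨hM⟩
  obtain ⟨σ, hσ⟩ : ∃ σ, σ = Z ∪ ZFSet.sep (fun x => AccPt Z x.rank ∧
    ∃ ν < δ, ∃ b ∈ N, InjIn N b ν.toZFSet ∧ AccPt b x.rank) η.toZFSet := ⟨_, rfl⟩
  haveI hσN : In N σ := ⟨hσ ▸ memV_of N _⟩
  have hs : σ ⊆ M ∩ lam.toZFSet := fun x hx => by
    rcases mem_union.1 (hσ ▸ hx) with k | k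
    · exact h1 k
    obtain ⟨k1, k2, ν, k3, b, k4, k5, k6⟩ := mem_sep.1 k
    refine mem_inter.2 ⟨?_, toZFSet_monotone hηl k1⟩
    obtain ⟨ζ, -, rfl⟩ := mem_toZFSet_iff.1 k1
    rw [rank_toZFSet] at k2 k6
    haveI : In N b := ⟨k4⟩
    haveI : In N ζ := ⟨h.ord ζ⟩
    have hb : b ∩ ζ.toZFSet ∈ N := memV_of N _
    haveI : UF (loc N) (fun _ v => (b3_nx ζ Z (vr v 0).rank).toZFSet) := by
      simp only [b3_nx]; infer_instance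
    have hn : ∀ x ∈ b ∩ ζ.toZFSet, _ := fun x hx =>
      b3_nx_spec (x := x.rank) k2 (by simpa using rank_lt_of_mem (mem_inter.1 hx).2)
    obtain ⟨j1, j2, j3⟩ := hδ ν k3
    have hd := h.small_mem hz2 (fun y hy => by
      obtain ⟨x, hx, rfl⟩ := mem_img.1 hy
      exact h1 (hn x hx).2.2)
      ((z6a_injIn_img N hb fun x => (b3_nx ζ Z x.rank).toZFSet).trans
        ((InjIn.of_subset hb fun _ k => (mem_inter.1 k).1).trans k5)) j1 j2 j3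
    generalize hD : img (fun x => (b3_nx ζ Z x.rank).toZFSet) (b ∩ ζ.toZFSet) = d at hd
    haveI : In (M : Set V) d := ⟨hd⟩
    have e : d.rank = ζ := by
      refine le_antisymm (rank_le_iff.2 fun y hy => ?_) (le_of_forall_lt fun ξ hξ => ?_)
      · obtain ⟨x, hx, rfl⟩ := mem_img.1 (hD ▸ hy)
        simpa using (hn x hx).1
      · obtain ⟨τ, t1, t2, t3⟩ := k6.2 ξ hξ
        have t4 := mem_inter.2 ⟨t3, toZFSet_mem_toZFSet_iff.2 t1⟩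
        have t5 := (hn _ t4).2.1
        have t6 := rank_lt_of_mem (hD ▸ mem_img.2 ⟨_, t4, rfl⟩ : _ ∈ d)
        simp only [rank_toZFSet] at t5 t6
        exact t2.trans (t5.trans t6)
    rw [← e]
    exact memO M _
  obtain ⟨e, he, H⟩ := h.gN σ hσN.out fun x hx => hz (mem_inter.1 (hs hx)).2
  haveI : In (M : Set V) e := ⟨he⟩
  refine ⟨e, he, ⟨fun x => all_of M (fun x => x ∈ e → x ∈ lam.toZFSet)
    (fun x hx k => (mem_inter.1 (hs ((H x hx).1 k))).2) x,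
    fun a => all_of M (fun a => a ∈ N → Sm a → e ∩ a ∈ N) (fun a ha k1 k2 => ?_) a,
    ⟨h2.1.trans_le hηl, all_ord M (fun ξ => ξ < lam → ∃ τ < lam, ξ < τ ∧ τ.toZFSet ∈ e)
      fun ξ k1 k2 => ?_⟩,
    all_ord M (fun ζ => ζ < lam → SmCof N ζ → AccPt e ζ → ζ.toZFSet ∈ e)
      fun ζ k1 k2 k3 k4 => ?_⟩, ?_⟩
  · haveI : In N a := ⟨k1⟩
    have e2 : e ∩ a = σ ∩ a := by
      ext t; simp only [mem_inter]
      exact and_congr_left fun k => H t (sm_subset h.om1 ha k2 k)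
    rw [e2]; exact memV_of N _
  · obtain ⟨τ, t1, t2, t3⟩ := h2.2 ξ (hη ξ k2 k1)
    exact ⟨τ, t1.trans_le hηl, t2,
      (H _ (mem_inter.1 (h1 t3)).1).2 (hσ ▸ mem_union.2 (Or.inl t3))⟩
  · haveI : In (M : Set V) ζ := ⟨k1⟩
    obtain ⟨b, b1, b2, b3⟩ := k3
    obtain ⟨β, c1, c2⟩ := (smN_iff N b1).1 (sm_iff.2 b2)
    obtain ⟨ν, n1, n2, n3⟩ := ex_ord M
      (fun ν => Sm ν.toZFSet ∧ ∃ b ∈ N, InjIn N b ν.toZFSet ∧ AccPt b ζ)
      ⟨β, sm_iff.2 (d1_lt.1 c1), b, b1, c2, b3⟩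
    obtain ⟨c, d1, d2, d3⟩ := ex_mem M (fun b => Sm b ∧ AccPt b ζ) ⟨b, sm_iff.2 b2, b3⟩
    refine (H _ k1).2 (hσ ▸ mem_union.2 (Or.inr (mem_sep.2
      ⟨toZFSet_mem_toZFSet_iff.2 (hη ζ k2 k1), ?_⟩)))
    rw [rank_toZFSet]
    refine ⟨⟨k4.1, fun ξ hξ => ?_⟩, ν, hδ' ν (d1_lt.2 (sm_iff.1 n2)) n1, n3⟩
    obtain ⟨ξ', j1, j2, j3⟩ := d3.2 ξ hξ
    haveI : In (M : Set V) ξ' := ⟨sm_subset h.om1 d1 d2 j3⟩
    obtain ⟨τ, t1, t2, t3, t4⟩ := ex_ord M (fun τ => τ < ζ ∧ ξ' < τ ∧ τ.toZFSet ∈ e) (k4.2 ξ' j1)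
    rcases mem_union.1 (hσ ▸ (H _ t1).1 t4) with k | k
    · exact ⟨τ, t2, j2.trans t3, k⟩
    · have k5 := (mem_sep.1 k).2.1
      rw [rank_toZFSet] at k5
      exact (k5.2 ξ (j2.trans t3)).imp fun _ j => ⟨j.1.trans t2, j.2⟩
  · have e2 : M ∩ e = σ := by
      ext t; rw [mem_inter]
      exact ⟨fun k => (H t k.1).1 k.2, fun k =>
        ⟨(mem_inter.1 (hs k)).1, (H t (mem_inter.1 (hs k)).1).2 k⟩⟩
    exact e2 ▸ hσN.out

end Pool.Agent.Lib.MP_f00570_lc
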