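import Pool.Agent.Lib.MP_f00570_lc.S.F2
import Pool.Agent.Lib.MP_f00570_lc.S.F3
import Pool.Agent.Lib.MP_f00570_lc.S.H

/-!
# Coherence and global reflection
-/

namespace Pool.Agent.Lib.MP_f00570_lc

open Pool.Agent.Lib.MP_f9eb18_lc Pool.Agent.Lib.MP_f9eb18_lc.W Ordinal ZFSet
set_option linter.style.haveILetI false
set_option linter.unusedVariables false

theorem si_refl {N : Set V} {M z : V} [IsZFC N] [ES M] [UC (par M) (fun _ _ => N)]
    {lam γ : Ordinal.{0}} (h : Ctx2 N M z) (hP : LocPres N) (hl : Reg lam)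
    (hM : lam.toZFSet ∈ M) (hγ : γ.toZFSet ∈ M) (hz : lam.toZFSet ⊆ z)
    (hz2 : prod lam.toZFSet lam.toZFSet ⊆ z) (hκ : (vonNeumann γ).card < lam.card) :
    Refl0 N (Kl N lam) M γ := by
  obtain ⟨⟨S, hS, hS'⟩, Z, hZ, h1, h2⟩ := h.cofinal hP hl hM hz
  obtain ⟨e, he, hE, hs⟩ := h.carrier hl hM hz hz2 hZ h1 h2
  exact (h.refl hl hM hγ hz2 hκ hS hS' he hE hs).1

theorem si_card {lam : Ordinal.{0}} (hl : Reg lam) {c : Cardinal.{0}} (h : c.ord < lam) :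
    c < lam.card := by
  obtain ⟨κ, -, -, rfl⟩ := reg_iff.1 hl
  rw [Cardinal.card_ord]; exact Cardinal.ord_lt_ord.1 h

theorem si_left (a b : V) : a ⊆ a ∪ b := fun _ h => mem_union.2 (Or.inl h)

theorem si_right (a b : V) : b ⊆ a ∪ b := fun _ h => mem_union.2 (Or.inr h)

theorem kl_coherent (hG : GM) {N : Set V} (hN : InnerModel N) (hT : Trace N) (hP : LocPres N)
    {γ lam lam' : Ordinal.{0}} (hl : Reg lam) (hl' : Reg lam')
    (h : (vonNeumann γ).card < lam.card) (h' : (vonNeumann γ).card < lam'.card) {y : V}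
    (hy : y.rank < γ) (hK : y ∈ Kl N lam) : y ∈ Kl N lam' := by
  haveI := hN.zfc
  obtain ⟨op, h1, h2⟩ := exists_skolem hN [lam.toZFSet, lam'.toZFSet, γ.toZFSet, y]
  obtain ⟨M, hM⟩ := hG ((lam.toZFSet ∪ prod lam.toZFSet lam.toZFSet) ∪
    (lam'.toZFSet ∪ prod lam'.toZFSet lam'.toZFSet)) op h1
  obtain ⟨i1, i2, h3⟩ := h2 M hM.cl
  have c := ctx2_of_gset hN hT hM
  have R := si_refl c hP hl (h3 _ (by simp)) (h3 _ (by simp))
    (fun _ k => si_left _ _ (si_left _ _ k)) (fun _ k => si_left _ _ (si_right _ _ k)) h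
  have R' := si_refl c hP hl' (h3 _ (by simp)) (h3 _ (by simp))
    (fun _ k => si_right _ _ (si_left _ _ k)) (fun _ k => si_right _ _ (si_right _ _ k)) h'
  have hy' : y ∈ M := h3 _ (by simp)
  exact (R'.mr y hy' hy).2 ((R.mr y hy' hy).1 hK)

theorem kk_iff (hG : GM) {N : Set V} (hN : InnerModel N) (hT : Trace N) (hP : LocPres N)
    {γ lam : Ordinal.{0}} (hl : Reg lam) (h : (vonNeumann γ).card < lam.card) {y : V}
    (hy : y.rank < γ) : y ∈ KK N ↔ y ∈ Kl N lam := by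
  refine ⟨fun ⟨α, hα⟩ => ?_, fun hK => ⟨(vonNeumann γ).card.ord, fun lam' h1 h2 =>
    kl_coherent hG hN hT hP hl h2 h (si_card h2 h1) hy hK⟩⟩
  obtain ⟨lam', h1, h2⟩ := exists_reg (max α (vonNeumann γ).card.ord)
  exact kl_coherent hG hN hT hP h2 hl (si_card h2 ((le_max_right _ _).trans_lt h1)) h hy
    (hα lam' ((le_max_left _ _).trans_lt h1) h2)

/-- one carrier works for stationarily many guessing sets -/
theorem exists_carrier (hG : GM) {N : Set V} (hN : InnerModel N) (hT : Trace N) (hP : LocPres N)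
    {lam : Ordinal.{0}} (hl : Reg lam) : ∃ e : V, Ecl N lam e ∧ ∀ l : List V,
      ∃ (M : V) (_ : ES M) (_ : UC (par M) (fun _ _ => N)), (∀ x ∈ l, x ∈ M) ∧ e ∈ M ∧
        M ∩ e ∈ N ∧ Ctx2 N M (lam.toZFSet ∪ prod lam.toZFSet lam.toZFSet) := by
  haveI := hN.zfc
  by_contra hn
  have h0 : ∀ e : V, ∃ l : List V, Ecl N lam e →
      ¬ ∃ (M : V) (_ : ES M) (_ : UC (par M) (fun _ _ => N)), (∀ x ∈ l, x ∈ M) ∧ e ∈ M ∧
        M ∩ e ∈ N ∧ Ctx2 N M (lam.toZFSet ∪ prod lam.toZFSet lam.toZFSet) := fun e => by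
    by_contra k
    exact hn ⟨e, by_contra fun k1 => k ⟨[], fun k2 => absurd k2 k1⟩, fun l =>
      by_contra fun k1 => k ⟨l, fun _ => k1⟩⟩
  choose L hL using h0
  obtain ⟨op, h1, h2⟩ := exists_skolem hN [lam.toZFSet]
  obtain ⟨M, hM⟩ := hG (lam.toZFSet ∪ prod lam.toZFSet lam.toZFSet)
    (fun k => op k ∪ {x | x ∈ L (k.headD ∅)})
    fun k => (h1 k).union (List.finite_toSet _).countable
  obtain ⟨i1, i2, h3⟩ := h2 M fun k hk x hx => hM.cl k hk (Or.inl hx)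
  have c := ctx2_of_gset hN hT hM
  have hl' : lam.toZFSet ∈ M := h3 _ (by simp)
  obtain ⟨-, Z, hZ, z1, z2⟩ := c.cofinal hP hl hl' (si_left _ _)
  obtain ⟨e, he, hE, hs⟩ := c.carrier hl hl' (si_left _ _) (si_right _ _) hZ z1 z2
  exact hL e hE ⟨M, i1, i2, fun x hx => hM.cl [e] (by simpa using he) (Or.inr hx), he, hs, c⟩

theorem hasRefl2 (hG : GM) {N : Set V} (hN : InnerModel N) (hT : Trace N) (hP : LocPres N) :
    HasRefl2 N (KK N) := by
  haveI := hN.zfc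
  intro l γ
  obtain ⟨lam, h0, hl⟩ := exists_reg (vonNeumann γ).card.ord
  have hκ := si_card hl h0
  have kk : ∀ y : V, y.rank < γ → (y ∈ KK N ↔ y ∈ Kl N lam) := fun y => kk_iff hG hN hT hP hl hκ
  obtain ⟨e, hE, H⟩ := exists_carrier hG hN hT hP hl
  obtain ⟨M, i1, i2, h1, he, hs, c⟩ := H (lam.toZFSet :: γ.toZFSet :: l)
  have hM : lam.toZFSet ∈ M := h1 _ (by simp)
  obtain ⟨⟨S, hS, hS'⟩, -⟩ := c.cofinal hP hl hM (si_left _ _)
  obtain ⟨R, hc⟩ := c.refl hl hM (h1 _ (by simp)) (si_right _ _) hκ hS hS' he hE hs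
  refine ⟨M, i1, uc_kk, fun x hx => h1 x (by simp [hx]), ⟨R.γM, R.om1, R.sm,
    fun y hy k => (kk y k).trans (R.mr y hy k), R.onto, fun σ h2 h3 => ?_⟩, fun o ho => ?_⟩
  · obtain ⟨U, hU, h4⟩ := R.plus σ ((kk σ h3).1 h2) h3
    refine ⟨U, hU, fun t => (h4 t).trans ⟨?_, ?_⟩⟩
    · exact fun ⟨y, a1, a2, a3, a4⟩ => ⟨y, a1, (kk y a3).2 a2, a3, a4⟩
    · exact fun ⟨y, a1, a2, a3, a4⟩ => ⟨y, a1, (kk y a3).1 a2, a3, a4⟩
  · have hr : (M ∩ o.toZFSet : V).rank < γ :=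
      ((rank_mono fun _ k => (mem_inter.1 k).2).trans (rank_toZFSet o).le).trans_lt ho
    obtain ⟨M1, j1, j2, k1, ke, ks, c1⟩ := H [lam.toZFSet, γ.toZFSet, M ∩ o.toZFSet]
    have hM1 : lam.toZFSet ∈ M1 := k1 _ (by simp)
    have hy : M ∩ o.toZFSet ∈ M1 := k1 _ (by simp)
    exact (kk _ hr).2 (((c1.refl hl hM1 (k1 _ (by simp)) (si_right _ _) hκ hS hS' ke hE
      ks).1.mr _ hy hr).2 (c1.mem_of_cod hM1 ke ks hy (hc o ho)))

end Pool.Agent.Lib.MP_f00570_lc
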