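import Pool.Agent.Lib.MP_f00570_lc.S.G
import Pool.Agent.Lib.MP_f00570_lc.D0
import Pool.Agent.Lib.MP_f00570_lc.D1

/-!
# A transitive class with reflection is a model of ZFC in which `ω₂` is supercompact
-/

namespace Pool.Agent.Lib.MP_f00570_lc

open Pool.Agent.Lib.MP_f9eb18_lc Pool.Agent.Lib.MP_f9eb18_lc.W Ordinal ZFSet
set_option linter.style.haveILetI false
set_option linter.unusedVariables false
set_option linter.unusedSectionVars false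

variable {N K : Set V} [IsZFC N]

theorem HasRefl2.ord (h : HasRefl2 N K) (hord : ∀ o : Ordinal.{0}, o.toZFSet ∈ N)
    (o : Ordinal.{0}) : o.toZFSet ∈ K := by
  obtain ⟨M, _, _, hl, R, -⟩ := h [o.toZFSet] (Order.succ o)
  have ho : o.toZFSet ∈ M := hl _ (by simp)
  exact (R.mr _ ho (by rw [rank_toZFSet]; exact Order.lt_succ _)).2 (pi_ord ho ▸ hord _)

theorem sj_Vs (hord : ∀ o : Ordinal.{0}, o.toZFSet ∈ N) (h : HasRefl2 N K) (β : Ordinal.{0}) :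
    Vs K β ∈ K := by
  obtain ⟨M, _, _, hl, R, hO⟩ := h [β.toZFSet, Vs K β] (Order.succ β)
  have hβ : β.toZFSet ∈ M := hl _ (by simp)
  have ht : Vs K β ∈ M := hl _ (by simp)
  have hr : (Vs K β).rank < Order.succ β :=
    Order.lt_succ_of_le (rank_le_iff.2 fun _ hy => (mem_Vs.1 hy).2)
  have e : pi M (Vs K β) = Vs N (pi M β.toZFSet).rank := by
    ext s
    rw [mem_pi ht, mem_Vs]
    constructor
    · rintro ⟨x, hx, k, rfl⟩
      obtain ⟨k1, k2⟩ := mem_Vs.1 k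
      exact ⟨(R.mr x hx (k2.trans (Order.lt_succ _))).1 k1, (pi_rank_lt hx hβ).2 k2⟩
    · rintro ⟨k1, k2⟩
      obtain ⟨y, hy, rfl⟩ := R.onto s k1 (k2.trans ((pi_rank_lt hβ R.γM).2
        (by rw [rank_toZFSet]; exact Order.lt_succ _)))
      have k3 := (pi_rank_lt hy hβ).1 k2
      exact ⟨y, hy, mem_Vs.2 ⟨(R.mr y hy (k3.trans (Order.lt_succ _))).2 k1, k3⟩, rfl⟩
  haveI : In N (pi M β.toZFSet).rank := ⟨hord _⟩
  exact (R.mr _ ht hr).2 (e ▸ memV_of N _)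

theorem sj_fn3 (h : HasRefl2 N K) (f : V → V → V → V)
    [UF pZ (fun _ v => f (vr v 0) (vr v 1) (vr v 2))] {a b c : V} (ha : a ∈ K) (hb : b ∈ K)
    (hc : c ∈ K) : f a b c ∈ K := by
  obtain ⟨γ, -, hγ⟩ := d0_bound [a, b, c, f a b c]
  obtain ⟨M, _, _, hl, R, hO⟩ := h [a, b, c, f a b c] γ
  have k : ∀ x ∈ [a, b, c, f a b c], x ∈ K ↔ pi M x ∈ N := fun x hx =>
    R.mr x (hl x hx) (hγ x hx)
  rw [k _ (by simp), pi_fn3 f (hl a (by simp)) (hl b (by simp)) (hl c (by simp))]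
  exact UF.cl (F := pZ) (f := fun _ v => f (vr v 0) (vr v 1) (vr v 2)) N
    (inferInstance : IsZ N)
    (cons (pi M a) (cons (pi M b) fun _ => pi M c))
    (cons_mem ((k a (by simp)).1 ha) (cons_mem ((k b (by simp)).1 hb)
      fun _ => (k c (by simp)).1 hc))

theorem sj_isZ (hord : ∀ o : Ordinal.{0}, o.toZFSet ∈ N) (h : HasRefl2 N K)
    (ht : ∀ x ∈ K, ∀ y ∈ x, y ∈ K) : IsZ K := by
  have h0 : (∅ : V) ∈ K := by simpa using h.ord hord 0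
  have hl : ∀ l : List V, (∀ x ∈ l, x ∈ K) → listZ l ∈ K := fun l => by
    induction l with
    | nil => exact fun _ => h0
    | cons a l ih =>
      intro k
      obtain ⟨k1, k2⟩ := List.forall_mem_cons.1 k
      exact sj_fn3 h (fun a b _ => pair a b) k1 (ih k2) k1
  refine z3d_isZ.2 ⟨ht, h.ord hord ω,
    fun a ha b hb => sj_fn3 h (fun a b _ => {a, b}) ha hb ha,
    fun a ha => sj_fn3 h (fun a _ _ => ⋃₀ a) ha ha ha, fun φ l k a ha => ?_,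
    fun φ l _ a _ k => ?_⟩
  · obtain ⟨γ, g0, hγ⟩ := d0_bound (a :: l)
    obtain ⟨β, hβ, H⟩ := exists_reflect K γ
    have e : ZFSet.sep (fun x => Sat1 K φ (env (x :: l))) a = ZFSet.sep
        (fun x => Sat1 (Vs K β : V) φ (env (x :: (dec (listZ l) : List V)))) a := by
      rw [show (dec (listZ l) : List V) = l from dec_enc l]
      ext x
      simp only [mem_sep]
      refine and_congr_right fun hx => (H φ _ (env_mem (M := (Vs K β : V))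
        (mem_Vs.2 ⟨h0, by rw [rank_empty]; exact g0.trans hβ⟩) (List.forall_mem_cons.2
          ⟨mem_Vs.2 ⟨ht a ha x hx, ?_⟩, fun y hy => mem_Vs.2 ⟨k y hy, ?_⟩⟩))).symm
      · exact ((rank_lt_of_mem hx).trans (hγ a (by simp))).trans hβ
      · exact (hγ y (by simp [hy])).trans hβ
    rw [e]
    exact sj_fn3 h (fun W p a => ZFSet.sep
      (fun x => Sat1 (W : V) φ (env (x :: (dec p : List V)))) a) (sj_Vs hord h β) (hl l k) ha
  · have k' : ∀ x : V, ∃ y, x ∈ a → y ∈ K ∧ Sat1 K φ (env (y :: x :: l)) := fun x => by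
      by_cases hx : x ∈ a
      · exact (k x hx).imp fun _ j _ => j
      · exact ⟨∅, fun j => absurd j hx⟩
    choose g hg using k'
    exact ⟨_, sj_Vs hord h (img g a).rank, fun x hx => ⟨g x, mem_Vs.2
      ⟨(hg x hx).1, rank_lt_of_mem (mem_img.2 ⟨x, hx, rfl⟩)⟩, (hg x hx).2⟩⟩

theorem HasRefl2.zfc (h : HasRefl2 N K) (hord : ∀ o : Ordinal.{0}, o.toZFSet ∈ N)
    (ht : ∀ x ∈ K, ∀ y ∈ x, y ∈ K) : IsZFC K := by
  haveI hZ := sj_isZ hord h ht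
  refine { hZ with wo := fun a ha => ?_, pow := fun a _ => ⟨_,
    sj_Vs hord h (Order.succ a.rank), fun x hx k =>
      mem_Vs.2 ⟨hx, Order.lt_succ_of_le (rank_mono k)⟩⟩ }
  obtain ⟨γ, -, hγ⟩ := d0_bound [a, prod a a]
  obtain ⟨M, _, _, hl, R, hO⟩ := h [a, prod a a] γ
  have aM : a ∈ M := hl _ (by simp)
  obtain ⟨w, hw, wo⟩ := exists_isWO N ((R.mr a aM (hγ _ (by simp))).1 ha)
  obtain ⟨u, uM, rfl⟩ := R.onto w hw ((rank_mono wo.1).trans_lt (by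
    rw [← pi_fn2 prod aM aM]
    exact (pi_rank_lt (hl _ (by simp)) R.γM).2 (hγ _ (by simp))))
  have wu : IsWO u a := (pi_iff2 IsWO uM aM).1 wo
  haveI : In K u := ⟨(R.mr u uM ((rank_mono wu.1).trans_lt (hγ _ (by simp)))).2 hw⟩
  haveI : In K a := ⟨ha⟩
  refine ⟨lam a fun x => (wpos u x).toZFSet, memV_of K _,
    (img (fun x => (wpos u x).toZFSet) a).rank, isInj_lam (fun x hx => ?_) fun x hx y hy e =>
      wu.wpos_inj hx hy (toZFSet_injective e)⟩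
  simpa only [toZFSet_mem_toZFSet_iff, rank_toZFSet] using
    rank_lt_of_mem (mem_img.2 ⟨x, hx, rfl⟩ : _ ∈ img (fun x => (wpos u x).toZFSet) a)

theorem HasRefl2.supercompact [IsZFC K] (h : HasRefl2 N K)
    (hord : ∀ o : Ordinal.{0}, o.toZFSet ∈ N) : Supercompact K (ω_ 2) := by
  have hK := h.ord hord
  refine ⟨?_, fun β hβ ⟨f, _, hf⟩ => ?_, fun lam _ => ?_⟩
  · exact d1_lt.2 (by simp [card_toZFSet])
  · exact lt_irrefl _ (d1_lt.2 ((card_le_of_isInj hf).trans (d1_lt.1 hβ)))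
  haveI : In K lam := ⟨hK lam⟩
  haveI : In K (ω_ 2 : Ordinal.{0}) := ⟨hK _⟩
  obtain ⟨p, hpK, hp⟩ : ∃ p ∈ K, IsPkl K (ω_ 2) lam p :=
    ⟨ZFSet.sep (fun s => ∃ β < ω_ 2, InjIn K s β.toZFSet) (pw K lam.toZFSet),
      memV_of _ _, fun s => by rw [mem_sep, mem_pw, and_assoc]; rfl⟩
  haveI : In K p := ⟨hpK⟩
  have hQK : pw K p ∈ K := memV_of _ _
  obtain ⟨M, _, _, hl, R, hO⟩ := h [p, pw K p, lam.toZFSet, (ω_ 2 : Ordinal.{0}).toZFSet]
    (Order.succ (max lam (pw K p).rank))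
  have hlam := Order.lt_succ_of_le (le_max_left lam (pw K p).rank)
  have hQ := Order.lt_succ_of_le (le_max_right lam (pw K p).rank)
  have hQM : pw K p ∈ M := hl _ (by simp)
  have hσ : M ∩ lam.toZFSet ∈ K := hO lam hlam
  have hσl : M ∩ lam.toZFSet ⊆ lam.toZFSet := fun _ k => (mem_inter.1 k).2
  have hσp : M ∩ lam.toZFSet ∈ p := by
    obtain ⟨o, ho, f, hf, hi, hr⟩ := exists_ord_bij hσ
    refine (hp _).2 ⟨hσ, hσl, o, d1_lt.2 ((card_le_of_isInj hi).trans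
      ((card_mono fun _ k => (mem_inter.1 k).1).trans (sm_iff.1 R.sm))),
      injIn_of_surj hf ho hσ fun y hy => ?_⟩
    obtain ⟨x, hx⟩ := mem_ran.1 (hr.symm ▸ hy)
    obtain ⟨h1, h2, -⟩ := isFunc_iff.1 hi.1
    exact ⟨x, h2 ▸ mem_dom.2 ⟨y, hx⟩, h1.app_eq hx⟩
  obtain ⟨U0, hU0, e0⟩ := R.plus _ hσ
    (((rank_mono hσl).trans_eq (rank_toZFSet _)).trans_lt hlam)
  haveI : In N U0 := ⟨hU0⟩
  haveI : In N (pi M (pw K p)) := ⟨(R.mr _ hQM hQ).1 hQK⟩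
  have h1 : U0 ∩ pi M (pw K p) ∈ N := memV_of _ _
  have h2 := (rank_mono (fun _ k => (mem_inter.1 k).2 :
    U0 ∩ pi M (pw K p) ⊆ pi M (pw K p))).trans_lt ((pi_rank_lt hQM R.γM).2 hQ)
  obtain ⟨U, hU, e⟩ := R.onto _ h1 h2
  refine ⟨p, hpK, U, (R.mr U hU ((pi_rank_lt hU R.γM).1 (e ▸ h2))).2 (e ▸ h1), hp,
    d1_normal R.om1 (hl _ (by simp)) hU (hl _ (by simp)) (hl _ (by simp)) hpK (hK _) hσp
      fun X hX => ?_⟩
  rw [← pi_mem_iff hX hU, e, mem_inter, pi_mem_iff hX hQM, e0]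
  constructor
  · rintro ⟨⟨y, hy, -, -, h3, h4⟩, h5⟩
    exact ⟨(mem_pw.1 h5).1, (mem_pw.1 h5).2, pi_inj hy hX h4 ▸ h3⟩
  · rintro ⟨h3, h4, h5⟩
    exact ⟨⟨X, hX, h3, (rank_lt_of_mem (mem_pw.2 ⟨h3, h4⟩)).trans hQ, h5, rfl⟩, mem_pw.2 ⟨h3, h4⟩⟩

omit [IsZFC N] in
theorem kk_defn (hN : InnerModel N) :
    ∃ (φ : Fo) (v : ℕ → V), ∀ x, x ∈ KK N ↔ Sat1 Set.univ φ (cons x v) := by
  obtain ⟨χ, w, hw⟩ := hN.defn
  haveI : UV (par Set.univ) (fun _ _ => w) :=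
    ⟨fun i => uf_constP (w i) (h := ⟨Set.mem_univ _⟩)⟩
  haveI : UC (par Set.univ) (fun _ _ => N) := ⟨fun _ e _ _ => e ▸ Set.subset_univ _,
    (inferInstance : UD (par Set.univ) fun _ v => Sat1 Set.univ χ (cons (vr v 0) w)).congr
      fun _ _ _ _ => hw _⟩
  obtain ⟨φ, c, -, H⟩ := (uc_kk (C := Set.univ) (N := N)).gr.out
  obtain ⟨ψ, hψ⟩ := sat_sw Set.univ φ c (fun _ => ∅) 1
  refine ⟨ψ, mrg (fun _ => ∅) c, fun y => ?_⟩
  rw [← pre_one, ← hψ, pre_one]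
  exact H _ rfl (cons y fun _ => ∅) fun _ => trivial

end Pool.Agent.Lib.MP_f00570_lc
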