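import Pool.Agent.Lib.MP_f00570_lc.A4
import Pool.Agent.Lib.MP_f00570_lc.S.I
import Pool.Agent.Lib.MP_f00570_lc.S.J

/-!
# Comparison of the inner model `KK N` with `N`
-/

namespace Pool.Agent.Lib.MP_f00570_lc

open Pool.Agent.Lib.MP_f9eb18_lc Pool.Agent.Lib.MP_f9eb18_lc.W Ordinal ZFSet
set_option linter.style.haveILetI false
set_option linter.unusedVariables false

theorem sa_trace {N : Set V} [IsZ N] (hC : ∀ x : V, (x : Set V).Countable → (x : Set V) ⊆ N →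
    ∃ a ∈ N, x ⊆ a ∧ Cardinal.mk {b : V // b ∈ N ∧ b ⊆ a} ≤ Cardinal.aleph 1) : Trace N :=
  fun x hx => by
  obtain ⟨a, ha, h1, h2⟩ := hC (ZFSet.sep (fun t => t ∈ N) x)
    (hx.mono fun t ht => (mem_sep.1 ht).1) fun t ht => (mem_sep.1 ht).2
  refine le_trans (Cardinal.mk_le_of_surjective
    (f := fun c : {b : V // b ∈ N ∧ b ⊆ a} => (⟨c.1 ∩ x, c.1, c.2.1, rfl⟩ :
      {b : V // ∃ d ∈ N, b = d ∩ x})) ?_) h2
  rintro ⟨_, d, hd, rfl⟩
  haveI : In N a := ⟨ha⟩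
  haveI : In N d := ⟨hd⟩
  refine ⟨⟨d ∩ a, memV_of N _, fun t ht => (mem_inter.1 ht).2⟩, Subtype.ext ?_⟩
  ext t
  simp only [mem_inter]
  exact ⟨fun k => ⟨k.1.1, k.2⟩,
    fun k => ⟨⟨k.1, h1 (mem_sep.2 ⟨k.2, IsZ.trans d hd t k.1⟩)⟩, k.2⟩⟩

theorem trace_of_cover {N : Set V} [IsZ N] (hC : Cover N) : Trace N :=
  sa_trace fun x h1 h2 => hC x h1 h2

theorem CofW.smCof {N : Set V} {ζ : Ordinal.{0}} (h : CofW N ζ) : SmCof N ζ := by
  obtain ⟨b, hb, ⟨f, -, hf⟩, k⟩ := h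
  refine ⟨b, hb, (card_le_of_isInj hf).trans ?_, k⟩
  simp [omegaZ, card_toZFSet]

/-- an unbounded set of `N` has accumulation points of cofinality `ω` in `N` -/
theorem sa_cofW {N : Set V} [IsZFC N] {c : V} {η ξ : Ordinal.{0}} (hη : η.toZFSet ∈ N)
    (h0 : Cardinal.aleph0 < η.cof) (hc : c ∈ N) (hA : AccPt c η) (hξ : ξ < η) :
    ∃ ζ < η, ξ < ζ ∧ CofW N ζ ∧ AccPt c ζ := by
  haveI : In N η := ⟨hη⟩
  haveI : In N c := ⟨hc⟩
  haveI : In N ξ := ⟨IsZ.ord_mem_of_le N hη hξ.le⟩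
  set g := fun x : Ordinal.{0} => b3_nx η c x with hg
  have k := fun x hx => b3_nx_spec (x := x) hA hx
  obtain ⟨ζ, h1, h2, h3⟩ := b3_iter h0 (g := g) (fun x hx => ⟨(k x hx).2.1, (k x hx).1⟩) hξ
  have h4 : 0 < ζ := zero_le.trans_lt (h2 0)
  haveI : UF (loc N) (fun _ v => (g^[natOf (vr v 0)] ξ).toZFSet) := by
    simp only [hg, b3_nx]; infer_instance
  have hb : img (fun x => (g^[natOf x] ξ).toZFSet) omegaZ ∈ N := memV_of N _
  refine ⟨ζ, h1, h2 0, ⟨_, hb, z5b_img ctbl_omega _ hb fun y hy => mem_img.1 hy, h4,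
    fun x hx => ?_⟩, h4, fun x hx => ?_⟩
  · obtain ⟨n, hn, -⟩ := h3 x hx
    exact ⟨_, h2 n, hn, mem_img.2 ⟨_, natZ_mem_omegaZ n, by rw [natOf_natZ]⟩⟩
  · obtain ⟨n, -, hn⟩ := h3 x hx
    refine ⟨_, h2 (n + 1), hn, ?_⟩
    rw [Function.iterate_succ_apply']
    exact (k _ ((h2 n).trans h1)).2.2

theorem locPres_of_statPres {N : Set V} [IsZFC N] (hord : ∀ o : Ordinal.{0}, o.toZFSet ∈ N)
    (hS : StatPres N) : LocPres N := fun η hη => by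
  have h0 : Cardinal.aleph0 < η.cof := hη ▸ Cardinal.aleph0_lt_aleph_one
  have m : ∀ x ∈ ZFSet.sep (fun x => CofW N x.rank) η.toZFSet,
      ∃ ζ < η, x = ζ.toZFSet ∧ CofW N ζ := fun x hx => by
    obtain ⟨h1, h2⟩ := mem_sep.1 hx
    obtain ⟨ζ, h3, rfl⟩ := mem_toZFSet_iff.1 h1
    exact ⟨ζ, h3, rfl, by rwa [rank_toZFSet] at h2⟩
  refine ⟨ZFSet.sep (fun x => CofW N x.rank) η.toZFSet, sep_mem N _ (hord η),
    fun x hx => (m x hx).imp fun ζ k => ⟨k.1, k.2.1, k.2.2.smCof⟩, fun c hc k => ?_,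
    fun T hT h1 => hS η h0 T hT fun x hx => m x (h1 hx)⟩
  obtain ⟨ζ, h1, -, h2, h3⟩ := sa_cofW (hord η) h0 hc k.2.1 k.2.1.1
  exact ⟨_, mem_sep.2 ⟨toZFSet_mem_toZFSet_iff.2 h1, by rwa [rank_toZFSet]⟩, k.2.2 ζ h1 h3⟩

/-- the order of a set of ordinals -/
noncomputable def sa_le (e : V) : V := rel e e fun x y => x.rank ≤ y.rank

theorem sa_wo {e : V} {lam : Ordinal.{0}} (h : e ⊆ lam.toZFSet) : IsWO (sa_le e) e :=
  (z4d_rel (A := e) ZFSet.rank fun x hx y hy k =>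
    (((isOrdinal_toZFSet lam).mem (h hx)).rank_inj ((isOrdinal_toZFSet lam).mem (h hy))).1 k).1

theorem sa_mem_iff {e x y : V} {lam : Ordinal.{0}} (h : e ⊆ lam.toZFSet) (hx : x ∈ e)
    (hy : y ∈ e) : wpos (sa_le e) x < wpos (sa_le e) y ↔ x ∈ y := by
  rw [← not_le, (sa_wo h).wpos_le_iff hy hx, sa_le, pair_mem_rel]
  obtain ⟨a, -, rfl⟩ := mem_toZFSet_iff.1 (h hx)
  obtain ⟨b, -, rfl⟩ := mem_toZFSet_iff.1 (h hy)
  simp [hx, hy]

/-- positions below the cardinality of a well-ordered set are attained -/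
theorem sa_surj {w e : V} (h : IsWO w e) {o : Ordinal.{0}} (ho : (o + 1).card < e.card) :
    ∃ x ∈ e, wpos w x = o := by
  by_contra hn
  have h1 : ∀ x ∈ e, wpos w x < o := fun x hx => by
    by_contra k
    rcases (not_lt.1 k).eq_or_lt with k | k
    · exact hn ⟨x, hx, k.symm⟩
    · exact hn (h.wpos_surj hx k)
  have h2 := card_le_of_isInj (isInj_lam (a := e) (b := (o + 1).toZFSet)
    (f := fun x => (wpos w x).toZFSet)
    (fun x hx => toZFSet_mem_toZFSet_iff.2 ((h1 x hx).trans (lt_add_one o)))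
    fun x hx y hy k => h.wpos_inj hx hy (toZFSet_injective k))
  rw [card_toZFSet] at h2
  exact absurd ho (not_lt.2 h2)

theorem sa_card {w A x : V} (h : IsWO w A) (hx : x ∈ A) : (wpos w x).card ≤ A.card := by
  have h1 : ∀ y : V, ∃ t, y ∈ (wpos w x).toZFSet → t ∈ A ∧ (wpos w t).toZFSet = y := fun y => by
    by_cases k : y ∈ (wpos w x).toZFSet
    · obtain ⟨o, ho, rfl⟩ := mem_toZFSet_iff.1 k
      obtain ⟨t, h2, h3⟩ := h.wpos_surj hx ho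
      exact ⟨t, fun _ => ⟨h2, by rw [h3]⟩⟩
    · exact ⟨y, fun k' => absurd k' k⟩
  choose f hf using h1
  have h2 := card_le_of_isInj (isInj_lam (a := (wpos w x).toZFSet) (b := A) (f := f)
    (fun y hy => (hf y hy).1) fun y hy y' hy' k => by rw [← (hf y hy).2, k, (hf y' hy').2])
  rwa [card_toZFSet] at h2

/-- elements of `N` have codes on the unbounded sets of `N` -/
theorem cod_of_mem {N : Set V} [IsZFC N] (hord : ∀ o : Ordinal.{0}, o.toZFSet ∈ N)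
    {lam γ : Ordinal.{0}} (hl : Reg lam) (hκ : (vonNeumann γ).card < lam.card) {e y : V}
    (he : e ∈ N) (h1 : e ⊆ lam.toZFSet) (h2 : AccPt e lam) (hy : y ∈ N) (hr : y.rank < γ) :
    Cod N lam e y := by
  have hA : Vs N γ ∈ N := z2d_Vs_mem N _ (hord γ)
  have tr : ∀ y ∈ Vs N γ, ∀ x ∈ y, x ∈ Vs N γ := fun y hy x hx => mem_Vs.2
    ⟨IsZ.trans y (mem_Vs.1 hy).1 x hx, (rank_lt_of_mem hx).trans (mem_Vs.1 hy).2⟩
  have hc : (Vs N γ).card < e.card :=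
    ((card_mono fun x hx => (mem_sep.1 hx).1).trans_lt hκ).trans_le (hl.card_le h2)
  have hi : Cardinal.aleph0 < e.card :=
    (hl.cof.trans_le (cof_le_card lam)).trans_le (hl.card_le h2)
  have hyA : y ∈ Vs N γ := mem_Vs.2 ⟨hy, hr⟩
  clear hy hr
  generalize Vs N γ = A at hA tr hc hyA
  obtain ⟨w, hw, hW, hlt⟩ := C0_wo N hord hA
  haveI : In N A := ⟨hA⟩
  haveI : In N w := ⟨hw⟩
  haveI : In N e := ⟨he⟩
  obtain ⟨w', hw'⟩ : ∃ w', w' = sa_le e := ⟨_, rfl⟩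
  haveI : In N w' := ⟨by rw [hw', sa_le]; exact memV_of N _⟩
  have hW' : IsWO w' e := hw' ▸ sa_wo h1
  set j := fun x : V => wmin w' e fun t => wpos w' t = wpos w x with hj
  have k : ∀ x ∈ A, j x ∈ e ∧ wpos w' (j x) = wpos w x := fun x hx => by
    have := hW'.wmin_spec (sa_surj hW' (o := wpos w x) (by
      rw [card_add, card_one]
      exact Cardinal.add_lt_of_lt hi.le ((sa_card hW hx).trans_lt hc)
        (Cardinal.one_lt_aleph0.trans hi)))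
    exact ⟨this.1, this.2.1⟩
  obtain ⟨E, hE⟩ : ∃ E, E = rel e e fun a b => ∃ x ∈ A, ∃ y ∈ A, x ∈ y ∧ a = j x ∧ b = j y :=
    ⟨_, rfl⟩
  have hEN : E ∈ N := by rw [hE]; simp only [hj]; exact memV_of N _
  have hs : E ⊆ memR (insert lam.toZFSet e) := fun p hp => by
    obtain ⟨a, ha, b, hb, rfl, x, hx, y, hy, q, rfl, rfl⟩ := mem_rel.1 (hE ▸ hp)
    refine z4c_memR.2 ⟨mem_insert_of_mem _ ha, mem_insert_of_mem _ hb, (sa_mem_iff h1 ha hb).1 ?_⟩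
    rw [← hw', (k x hx).2, (k y hy).2]
    exact hlt x hx y hy q
  have hwf : WF E := Subrelation.wf (fun h => (z4c_memR.1 (hs h)).2.2) mem_wf
  have main : ∀ y : V, y ∈ A → col E (j y) = y := fun y => by
    induction y using ZFSet.inductionOn with
    | h y ih =>
      intro hy
      ext t
      rw [mem_col (hwf.accP _)]
      constructor
      · rintro ⟨u, hu, rfl⟩
        obtain ⟨-, -, x, hx, y', hy', q, rfl, q'⟩ := pair_mem_rel.1 (hE ▸ hu)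
        obtain rfl : y = y' := hW.wpos_inj hy hy' (by rw [← (k y hy).2, q', (k y' hy').2])
        rwa [ih x q hx]
      · intro ht
        have h3 := tr y hy t ht
        exact ⟨j t, hE ▸ pair_mem_rel.2 ⟨(k t h3).1, (k y hy).1, t, h3, y, hy, ht, rfl, rfl⟩,
          ih t ht h3⟩
  obtain ⟨ξ, -, hξ⟩ := mem_toZFSet_iff.1 (h1 (k y hyA).1)
  exact ⟨E, hs, apx_of_mem hEN, ξ, by rw [hξ, main y hyA]⟩

theorem Reg.lim {lam : Ordinal.{0}} (hl : Reg lam) : Order.IsSuccLimit lam := by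
  obtain ⟨κ, h1, -, rfl⟩ := reg_iff.1 hl
  exact Cardinal.isSuccLimit_ord h1.aleph0_le

/-- `lam` itself is a carrier -/
theorem ecl_self {N : Set V} [IsZ N] {lam : Ordinal.{0}} (hl : Reg lam) (h : lam.toZFSet ∈ N) :
    Ecl N lam lam.toZFSet :=
  ⟨subset_rfl, apx_of_mem h, ⟨hl.lim.pos, fun ξ hξ => ⟨_, hl.lim.succ_lt hξ, Order.lt_succ ξ,
    toZFSet_mem_toZFSet_iff.2 (hl.lim.succ_lt hξ)⟩⟩, fun ζ k _ _ => toZFSet_mem_toZFSet_iff.2 k⟩

theorem sa_reg (γ : Ordinal.{0}) : ∃ α : Ordinal.{0}, ∀ lam, α < lam →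
    (vonNeumann γ).card < lam.card :=
  ⟨(Order.succ (vonNeumann γ).card).ord, fun lam h =>
    Order.succ_le_iff.1 (Cardinal.ord_le.1 h.le)⟩

/-- under covering and full preservation of stationary sets the inner model contains `N` -/
theorem subset_kk (hG : GM) {N : Set V} (hN : InnerModel N) (hC : Cover N) (hS : StatPres N) :
    N ⊆ KK N := fun y hy => by
  haveI := hN.zfc
  obtain ⟨α, hα⟩ := sa_reg (y.rank + 1)
  refine ⟨α, fun lam h hl => ?_⟩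
  haveI : In N lam := ⟨hN.ord _⟩
  obtain ⟨z, hz⟩ : ∃ z, z = lam.toZFSet ∪ prod lam.toZFSet lam.toZFSet := ⟨_, rfl⟩
  have z1 : lam.toZFSet ⊆ z := fun _ k => hz ▸ mem_union.2 (Or.inl k)
  have z2 : prod lam.toZFSet lam.toZFSet ⊆ z := fun _ k => hz ▸ mem_union.2 (Or.inr k)
  obtain ⟨op, h1, h2⟩ := exists_skolem hN [z, lam.toZFSet, (y.rank + 1).toZFSet, y]
  obtain ⟨M, hM⟩ := hG z op h1
  obtain ⟨i1, i2, h3⟩ := h2 M hM.cl
  have c1 := ctx_of_gset hN hC (hz ▸ memV_of N _) (h3 z (by simp)) hM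
  have c2 := ctx2_of_gset hN (trace_of_cover hC) hM
  have hlM := h3 lam.toZFSet (by simp)
  have hyM := h3 y (by simp)
  have hs : M ∩ lam.toZFSet ∈ N := by
    obtain ⟨κ, k1, k2, rfl⟩ := reg_iff.1 hl
    exact c1.inter_mem hS k1 (by simpa using hl.cof.trans_le (cof_le_card _)) hlM z1
  obtain ⟨⟨S, s1, s2⟩, -⟩ := c2.cofinal (locPres_of_statPres hN.ord hS) hl hlM z1
  have hE := ecl_self hl (hN.ord lam)
  exact ((c2.refl hl hlM (h3 _ (by simp)) z2 (hα lam h) s1 s2 hlM hE hs).1.mr y hyM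
    (lt_add_one _)).2 (c2.mem_of_cod hlM hlM hs hyM
      (cod_of_mem hN.ord hl (hα lam h) (hN.ord _) hE.1 hE.2.2.1 hy (lt_add_one _)))

/-- under the approximation property the inner model is `N` itself -/
theorem kk_eq_of_apx {N : Set V} (hN : InnerModel N)
    (hA : ∀ x : V, (x : Set V) ⊆ N → Apx N x → x ∈ N) : KK N = N := by
  haveI := hN.zfc
  refine Set.Subset.antisymm (fun y ⟨α, hα⟩ => ?_) fun y hy => ?_
  · obtain ⟨lam, h1, h2⟩ := exists_reg α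
    obtain ⟨E, h3, h4, ξ, rfl⟩ := hα lam h1 h2 _ (ecl_self h2 (hN.ord lam))
    haveI : In N lam := ⟨hN.ord _⟩
    haveI : In N ξ := ⟨hN.ord _⟩
    haveI : In N E := ⟨hA E (fun p hp => IsZ.trans _
      (memV_of N (memR (insert lam.toZFSet lam.toZFSet))) p (h3 hp)) h4⟩
    exact memV_of N _
  · obtain ⟨α, hα⟩ := sa_reg (y.rank + 1)
    exact ⟨α, fun lam h hl e he => cod_of_mem hN.ord hl (hα lam h)
      (hA e (fun p hp => IsZ.trans _ (hN.ord lam) p (he.1 hp)) he.2.1) he.1 he.2.2.1 hy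
      (lt_add_one _)⟩

/-- position in a set of ordinals -/
noncomputable def sa_p (c : V) (ζ : Ordinal.{0}) : Ordinal.{0} := wpos (sa_le c) ζ.toZFSet
/-- order type of a set of ordinals -/
noncomputable def sa_ot (c : V) : Ordinal.{0} := osup c fun t => wpos (sa_le c) t + 1

section
variable {c : V} {η : Ordinal.{0}}

theorem sa_p_lt (h : c ⊆ η.toZFSet) {s t : Ordinal.{0}} (hs : s.toZFSet ∈ c)
    (ht : t.toZFSet ∈ c) : sa_p c s < sa_p c t ↔ s < t :=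
  (sa_mem_iff h hs ht).trans toZFSet_mem_toZFSet_iff

theorem sa_p_ot {t : Ordinal.{0}} (ht : t.toZFSet ∈ c) : sa_p c t < sa_ot c :=
  lt_osup_iff.2 ⟨_, ht, lt_add_one _⟩

theorem sa_p_surj (h : c ⊆ η.toZFSet) {o : Ordinal.{0}} (ho : o < sa_ot c) :
    ∃ t < η, t.toZFSet ∈ c ∧ sa_p c t = o := by
  obtain ⟨x, hx, h1⟩ := lt_osup_iff.1 ho
  have h2 : ∃ y ∈ c, wpos (sa_le c) y = o := by
    rcases (Order.lt_add_one_iff.1 h1).eq_or_lt with k | k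
    · exact ⟨x, hx, k.symm⟩
    · exact (sa_wo h).wpos_surj hx k
  obtain ⟨y, hy, h3⟩ := h2
  obtain ⟨t, ht, rfl⟩ := mem_toZFSet_iff.1 (h hy)
  exact ⟨t, ht, hy, h3⟩

theorem sa_ot_card (h : c ⊆ η.toZFSet) : (sa_ot c).card ≤ c.card := by
  have h1 : ∀ y : V, ∃ t : Ordinal.{0}, y ∈ (sa_ot c).toZFSet →
      t.toZFSet ∈ c ∧ (sa_p c t).toZFSet = y := fun y => by
    by_cases k : y ∈ (sa_ot c).toZFSet
    · obtain ⟨o, ho, rfl⟩ := mem_toZFSet_iff.1 k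
      obtain ⟨t, -, h2, h3⟩ := sa_p_surj h ho
      exact ⟨t, fun _ => ⟨h2, by rw [h3]⟩⟩
    · exact ⟨0, fun k' => absurd k' k⟩
  choose f hf using h1
  have h2 := card_le_of_isInj (isInj_lam (a := (sa_ot c).toZFSet) (b := c)
    (f := fun y => (f y).toZFSet) (fun y hy => (hf y hy).1) fun y hy y' hy' k => by
      rw [← (hf y hy).2, toZFSet_injective k, (hf y' hy').2])
  rwa [card_toZFSet] at h2

/-- accumulation is transported along the position map -/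
theorem sa_acc (h : c ⊆ η.toZFSet) {b d : V} {ζ : Ordinal.{0}} (hζ : ζ.toZFSet ∈ c)
    (hb : AccPt b ζ) (hd : ∀ s < ζ, s.toZFSet ∈ b → ∃ t < ζ, s ≤ t ∧ t.toZFSet ∈ c ∧
      (sa_p c t).toZFSet ∈ d) : AccPt d (sa_p c ζ) := by
  refine ⟨?_, fun o ho => ?_⟩
  · obtain ⟨s, h1, -, h2⟩ := hb.2 0 hb.1
    obtain ⟨t, h3, -, h4, -⟩ := hd s h1 h2
    exact zero_le.trans_lt ((sa_p_lt h h4 hζ).2 h3)
  · obtain ⟨r, -, h1, rfl⟩ := sa_p_surj h (ho.trans (sa_p_ot hζ))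
    obtain ⟨s, h2, h3, h4⟩ := hb.2 r ((sa_p_lt h h1 hζ).1 ho)
    obtain ⟨t, h5, h6, h7, h8⟩ := hd s h2 h4
    exact ⟨_, (sa_p_lt h h7 hζ).2 h5, (sa_p_lt h h1 h7).2 (h3.trans_le h6), h8⟩

theorem sa_up (h : Club c η) {d : V} (hd : Club d (sa_ot c)) :
    Club (ZFSet.sep (fun t => (wpos (sa_le c) t).toZFSet ∈ d) c) η := by
  refine ⟨fun x hx => h.1 (mem_sep.1 hx).1, ⟨h.2.1.1, fun ξ hξ => ?_⟩, fun ζ h1 h2 => ?_⟩
  · obtain ⟨t, -, h2, h3⟩ := h.2.1.2 ξ hξ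
    obtain ⟨o, h4, h5, h6⟩ := hd.2.1.2 _ (sa_p_ot h3)
    obtain ⟨s, h7, h8, rfl⟩ := sa_p_surj h.1 h4
    exact ⟨s, h7, h2.trans ((sa_p_lt h.1 h3 h8).1 h5), mem_sep.2 ⟨h8, h6⟩⟩
  · have h3 := h.2.2 ζ h1 (h2.mono fun _ _ k => (mem_sep.1 k).1)
    exact mem_sep.2 ⟨h3, hd.2.2 _ (sa_p_ot h3) (sa_acc h.1 h3 h2 fun s k1 k2 =>
      ⟨s, k1, le_rfl, mem_sep.1 k2⟩)⟩

theorem sa_inter (h0 : Cardinal.aleph0 < η.cof) (h : Club c η) {d : V} (hd : Club d η) :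
    Club (c ∩ d) η := by
  refine ⟨fun x hx => h.1 (mem_inter.1 hx).1, ⟨h.2.1.1, fun ξ hξ => ?_⟩, fun ζ h1 h2 =>
    mem_inter.2 ⟨h.2.2 ζ h1 (h2.mono fun _ _ k => (mem_inter.1 k).1),
      hd.2.2 ζ h1 (h2.mono fun _ _ k => (mem_inter.1 k).2)⟩⟩
  obtain ⟨ζ, h1, h2, h3, b, h4, -, h5⟩ := exists_acc2 h0 h.2.1 hd.2.1 hξ
  exact ⟨ζ, h1, h2, mem_inter.2 ⟨h.2.2 ζ h1 h3, hd.2.2 ζ h1 (h5.mono fun _ _ k => h4 k)⟩⟩

theorem sa_down (h : c ⊆ η.toZFSet) {d : V} (hd : Club d η) (hs : d ⊆ c) :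
    Club (img (fun t => (wpos (sa_le c) t).toZFSet) d) (sa_ot c) := by
  have m : ∀ t : Ordinal.{0}, t.toZFSet ∈ d →
      (sa_p c t).toZFSet ∈ img (fun t => (wpos (sa_le c) t).toZFSet) d :=
    fun t ht => mem_img.2 ⟨_, ht, rfl⟩
  have m' : ∀ o : Ordinal.{0}, o.toZFSet ∈ img (fun t => (wpos (sa_le c) t).toZFSet) d →
      ∃ t : Ordinal.{0}, t.toZFSet ∈ d ∧ sa_p c t = o := fun o ho => by
    obtain ⟨x, hx, e⟩ := mem_img.1 ho
    obtain ⟨t, -, rfl⟩ := mem_toZFSet_iff.1 (hd.1 hx)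
    exact ⟨t, hx, toZFSet_injective e⟩
  refine ⟨fun x hx => ?_, ⟨?_, fun o ho => ?_⟩, fun o ho hA => ?_⟩
  · obtain ⟨y, hy, rfl⟩ := mem_img.1 hx
    exact toZFSet_mem_toZFSet_iff.2 (lt_osup_iff.2 ⟨y, hs hy, lt_add_one _⟩)
  · obtain ⟨t, -, -, h1⟩ := hd.2.1.2 0 hd.2.1.1
    exact zero_le.trans_lt (sa_p_ot (hs h1))
  · obtain ⟨t, h1, h2, rfl⟩ := sa_p_surj h ho
    obtain ⟨s, -, h3, h4⟩ := hd.2.1.2 t h1
    exact ⟨_, sa_p_ot (hs h4), (sa_p_lt h h2 (hs h4)).2 h3, m s h4⟩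
  · obtain ⟨t, h1, h2, rfl⟩ := sa_p_surj h ho
    obtain ⟨s, hs'⟩ : ∃ s, s = (d ∩ t.toZFSet).rank := ⟨_, rfl⟩
    have k1 : ∀ r < t, r.toZFSet ∈ d → r < s := fun r j1 j2 => by
      simpa [hs'] using rank_lt_of_mem (mem_inter.2 ⟨j2, toZFSet_mem_toZFSet_iff.2 j1⟩)
    have k2 : s ≤ t := by
      rw [hs', ← rank_toZFSet t]
      exact rank_mono fun x hx => by simpa using (mem_inter.1 hx).2
    have k3 : ∀ o < sa_p c t, ∃ r < t, r.toZFSet ∈ d ∧ o < sa_p c r := fun o j => by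
      obtain ⟨o', j1, j2, j3⟩ := hA.2 o j
      obtain ⟨r, j4, rfl⟩ := m' o' j3
      exact ⟨r, (sa_p_lt h (hs j4) h2).1 j1, j4, j2⟩
    have k4 : s.toZFSet ∈ d := by
      refine hd.2.2 s (k2.trans_lt h1) ⟨?_, fun ξ hξ => ?_⟩
      · obtain ⟨r, j1, j2, -⟩ := k3 0 hA.1
        exact zero_le.trans_lt (k1 r j1 j2)
      · obtain ⟨y, hy, j⟩ := ZFSet.lt_rank_iff.1 (hs' ▸ hξ)
        obtain ⟨j1, j2⟩ := mem_inter.1 hy
        obtain ⟨a, ha, rfl⟩ := mem_toZFSet_iff.1 j2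
        obtain ⟨r, j3, j4, j5⟩ := k3 _ ((sa_p_lt h (hs j1) h2).2 ha)
        exact ⟨r, k1 r j3 j4, (j.trans_eq (rank_toZFSet a)).trans_lt
          ((sa_p_lt h (hs j1) (hs j4)).1 j5), j4⟩
    rcases k2.eq_or_lt with e | e
    · exact m t (e ▸ k4)
    · exact absurd (k1 s e k4) (lt_irrefl s)

end

/-- The hypotheses of the Viale-Weiss transfer theorem without approximation: `ω₂` is a strong
limit in `N`, sets of size at most `ℵ₁` are covered by such sets of `N`, and stationary subsets of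
ordinals below `ω₂` are preserved. -/
structure VWHyp (N : Set V) : Prop where
  lim : ∀ α < ω_ 2, Cardinal.mk {b : V // b ∈ N ∧ b ⊆ α.toZFSet} ≤ Cardinal.aleph 1
  cov : ∀ x : V, (x : Set V) ⊆ N → x.card ≤ Cardinal.aleph 1 →
    ∃ a ∈ N, x ⊆ a ∧ a.card ≤ Cardinal.aleph 1
  pres : ∀ γ < ω_ 2, ∀ S ∈ N, (∀ x ∈ S, ∃ ζ < γ, x = ζ.toZFSet ∧ CofW N ζ) →
    Stat N S γ → Stat Set.univ S γ

theorem VWHyp.trace {N : Set V} [IsZFC N] (h : VWHyp N) : Trace N := by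
  refine sa_trace fun x h1 h2 => ?_
  obtain ⟨f, -, hf⟩ := ctbl_univ.2 h1
  obtain ⟨a, ha, h3, h4⟩ := h.cov x h2 ((card_le_of_isInj hf).trans (by
    simp [omegaZ, card_toZFSet]))
  obtain ⟨β, hβ, hi⟩ := (smN_iff N ha).1 (sm_iff.2 h4)
  obtain ⟨g, hg, k1, k2⟩ := z5b_spec hi
  haveI : In N g := ⟨hg⟩
  refine ⟨a, ha, h3, le_trans (Cardinal.mk_le_of_injective
    (f := fun b : {b : V // b ∈ N ∧ b ⊆ a} => (⟨img (app g) b.1,
      haveI : In N b.1 := ⟨b.2.1⟩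
      memV_of N (img (fun x => app g x) b.1), fun y hy => by
        obtain ⟨t, ht, rfl⟩ := mem_img.1 hy
        exact k1 t (b.2.2 ht)⟩ : {b : V // b ∈ N ∧ b ⊆ β.toZFSet})) ?_) (h.lim β hβ)⟩
  have key : ∀ b b' : V, b ⊆ a → b' ⊆ a → img (app g) b = img (app g) b' → b ⊆ b' :=
    fun b b' j1 j2 e t ht => by
      obtain ⟨s, hs, q⟩ := mem_img.1 (e ▸ (mem_img.2 ⟨t, ht, rfl⟩ : app g t ∈ img (app g) b))
      exact k2 s (j2 hs) t (j1 ht) q ▸ hs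
  intro b b' e
  have e' := congrArg Subtype.val e
  exact Subtype.ext (subset_antisymm (key _ _ b.2.2 b'.2.2 e') (key _ _ b'.2.2 b.2.2 e'.symm))

theorem sa_small {η : Ordinal.{0}} (hη : η.cof = Cardinal.aleph 1) :
    ∃ x ⊆ η.toZFSet, x.card ≤ Cardinal.aleph 1 ∧ AccPt x η := by
  have hl : Order.IsSuccLimit η := by
    rw [← Ordinal.one_lt_cof_iff, hη]
    exact Cardinal.one_lt_aleph0.trans Cardinal.aleph0_lt_aleph_one
  obtain ⟨s, hs, e⟩ := Order.exists_cof_eq (Set.Iio η)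
  refine ⟨ZFSet.sep (fun t => ∃ y ∈ s, y.1.toZFSet = t) η.toZFSet, fun t ht => (mem_sep.1 ht).1,
    ?_, hl.pos, fun ξ hξ => ?_⟩
  · rw [← Cardinal.lift_le.{1}, ← cardinalMk_coe_sort, ← hη, lift_cof, ← cof_Iio, ← e]
    refine Cardinal.mk_le_of_surjective (f := fun y : s =>
      (⟨y.1.1.toZFSet, mem_sep.2 ⟨toZFSet_mem_toZFSet_iff.2 y.1.2, y.1, y.2, rfl⟩⟩ :
        ZFSet.sep (fun t => ∃ y ∈ s, y.1.toZFSet = t) η.toZFSet)) ?_
    rintro ⟨t, ht⟩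
    obtain ⟨y, hy, rfl⟩ := (mem_sep.1 ht).2
    exact ⟨⟨y, hy⟩, rfl⟩
  · obtain ⟨y, hy, k⟩ := hs ⟨_, hl.succ_lt hξ⟩
    exact ⟨y.1, y.2, Order.succ_le_iff.1 k, mem_sep.2 ⟨toZFSet_mem_toZFSet_iff.2 y.2, y, hy, rfl⟩⟩

theorem VWHyp.locPres {N : Set V} [IsZFC N] (hord : ∀ o : Ordinal.{0}, o.toZFSet ∈ N)
    (h : VWHyp N) : LocPres N := fun η hη => by
  have h0 : Cardinal.aleph0 < η.cof := hη ▸ Cardinal.aleph0_lt_aleph_one
  obtain ⟨x, x1, x2, x3⟩ := sa_small hη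
  obtain ⟨a, ha, a1, a2⟩ := h.cov x (fun t ht => IsZ.trans _ (hord η) t (x1 ht)) x2
  have a3 : AccPt a η := x3.mono fun _ _ k => a1 k
  haveI : In N a := ⟨ha⟩
  haveI : In N η := ⟨hord η⟩
  have hc := club_accs h0 a3
  have hcN : accs a η ∈ N := sep_mem N _ (hord η)
  have hcs : (accs a η).card ≤ a.card := by
    have key : ∀ s t : Ordinal.{0}, t.toZFSet ∈ accs a η → s < t → b3_nx η a s < b3_nx η a t :=
      fun s t ht j => by
        obtain ⟨j1, j2⟩ := mem_accs.1 ht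
        obtain ⟨r, j3, j4, j5⟩ := j2.2 s j
        exact ((olst_le_of (j3.trans j1) ⟨j4, j5⟩).trans_lt j3).trans (b3_nx_spec a3 j1).2.1
    refine card_le_of_isInj (isInj_lam (f := fun t => (b3_nx η a t.rank).toZFSet)
      (fun t ht => (b3_nx_spec a3 (by simpa using rank_lt_of_mem (hc.1 ht))).2.2)
      fun t ht t' ht' e => ?_)
    obtain ⟨s, -, rfl⟩ := mem_toZFSet_iff.1 (hc.1 ht)
    obtain ⟨s', -, rfl⟩ := mem_toZFSet_iff.1 (hc.1 ht')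
    have e' := toZFSet_injective e
    simp only [rank_toZFSet] at e'
    rcases lt_trichotomy s s' with j | j | j
    · exact absurd e' (key s s' ht' j).ne
    · rw [j]
    · exact absurd e' (key s' s ht j).ne'
  generalize accs a η = c at hc hcN hcs
  haveI : In N c := ⟨hcN⟩
  obtain ⟨w, hw⟩ : ∃ w, w = sa_le c := ⟨_, rfl⟩
  haveI : In N w := ⟨by rw [hw, sa_le]; exact memV_of N _⟩
  have hμ : sa_ot c < ω_ 2 := d1_lt.2 (by
    rw [card_toZFSet]; exact ((sa_ot_card hc.1).trans hcs).trans a2)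
  have m : ∀ t ∈ ZFSet.sep (fun t => CofW N t.rank ∧ AccPt c t.rank) η.toZFSet,
      ∃ ζ < η, t = ζ.toZFSet ∧ CofW N ζ ∧ AccPt c ζ := fun t ht => by
    obtain ⟨h1, h2⟩ := mem_sep.1 ht
    obtain ⟨ζ, h3, rfl⟩ := mem_toZFSet_iff.1 h1
    exact ⟨ζ, h3, rfl, by rwa [rank_toZFSet] at h2⟩
  refine ⟨ZFSet.sep (fun t => CofW N t.rank ∧ AccPt c t.rank) η.toZFSet, sep_mem N _ (hord η),
    fun t ht => (m t ht).imp fun ζ k => ⟨k.1, k.2.1, k.2.2.1.smCof⟩, fun d hd k => ?_,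
    fun T hT h1 h2 d _ k => ?_⟩
  · haveI : In N d := ⟨hd⟩
    have k' := sa_inter h0 hc k
    obtain ⟨ζ, j1, -, j2, j3⟩ := sa_cofW (hord η) h0 (memV_of N (c ∩ d)) k'.2.1 k'.2.1.1
    exact ⟨_, mem_sep.2 ⟨toZFSet_mem_toZFSet_iff.2 j1, by
      rw [rank_toZFSet]; exact ⟨j2, j3.mono fun _ _ q => (mem_inter.1 q).1⟩⟩,
      (mem_inter.1 (k'.2.2 ζ j1 j3)).2⟩
  · haveI : In N T := ⟨hT⟩
    have hTc : T ⊆ c := fun t ht => by
      obtain ⟨ζ, j1, rfl, -, j2⟩ := m t (h1 ht)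
      exact hc.2.2 ζ j1 j2
    obtain ⟨y, y1, y2⟩ := h.pres _ hμ (img (fun t => (wpos w t).toZFSet) T) (memV_of N _)
      (fun y hy => by
        obtain ⟨t, ht, rfl⟩ := mem_img.1 hy
        obtain ⟨ζ, j1, rfl, ⟨b, hb, j2, j3⟩, j4⟩ := m t (h1 ht)
        haveI : In N b := ⟨hb⟩
        haveI : In N ζ := ⟨hord ζ⟩
        haveI : UF (loc N) (fun _ v => (wpos w (b3_nx ζ c (vr v 0).rank).toZFSet).toZFSet) := by
          simp only [b3_nx]; infer_instance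
        have j5 : img (fun s => (wpos w (b3_nx ζ c s.rank).toZFSet).toZFSet) b ∈ N :=
          memV_of N _
        refine ⟨sa_p c ζ, sa_p_ot (hTc ht), by rw [hw]; rfl, _, j5,
          z5b_img j2 _ j5 fun y hy => mem_img.1 hy, sa_acc hc.1 (hTc ht) j3 fun s q1 q2 => ?_⟩
        obtain ⟨r1, r2, r3⟩ := b3_nx_spec j4 q1
        exact ⟨_, r1, r2.le, r3, mem_img.2 ⟨_, q2, by rw [rank_toZFSet, hw]; rfl⟩⟩)
      (fun d' hd' k' => by
        haveI : In N d' := ⟨hd'⟩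
        obtain ⟨t, t1, t2⟩ := h2 _ (sep_mem N (fun t => (wpos w t).toZFSet ∈ d') hcN)
          (hw ▸ sa_up hc k')
        exact ⟨_, mem_img.2 ⟨t, t1, rfl⟩, (mem_sep.1 t2).2⟩)
      _ trivial (sa_down hc.1 (sa_inter h0 hc k) fun t ht => (mem_inter.1 ht).1)
    obtain ⟨t, t1, rfl⟩ := mem_img.1 y1
    obtain ⟨s, s1, e⟩ := mem_img.1 y2
    rw [hw] at e
    exact ⟨t, t1, (sa_wo hc.1).wpos_inj (mem_inter.1 s1).1 (hTc t1) (toZFSet_injective e) ▸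
      (mem_inter.1 s1).2⟩

/-- the main theorem with the comparison of `K` and `N` -/
theorem main4 (hP : PFA) (N : Set V) (hN : InnerModel N)
    (h : (Trace N ∧ LocPres N) ∨ (Cover N ∧ StatPres N) ∨ VWHyp N) :
    ∃ K : Set V, InnerModel K ∧ Supercompact K (ω_ 2) ∧ (Cover N → StatPres N → N ⊆ K) ∧
      ((∀ x : V, (x : Set V) ⊆ N →
        (∀ a ∈ N, a.card ≤ Cardinal.aleph 1 → x ∩ a ∈ N) → x ∈ N) → K = N) := by
  have := hN.zfc
  have h' : Trace N ∧ LocPres N := by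
    rcases h with h | h | h
    · exact h
    · exact ⟨trace_of_cover h.1, locPres_of_statPres hN.ord h.2⟩
    · exact ⟨h.trace, h.locPres hN.ord⟩
  have k := hasRefl2 (gm_of_pfa hP) hN h'.1 h'.2
  have := k.zfc hN.ord (kk_trans N)
  exact ⟨KK N, ⟨this, k.ord hN.ord, kk_defn hN⟩, k.supercompact hN.ord,
    subset_kk (gm_of_pfa hP) hN,
    fun q => kk_eq_of_apx hN fun x h1 h2 => q x h1 fun a ha h3 => h2 a ha (sm_iff.2 h3)⟩

end Pool.Agent.Lib.MP_f00570_lc
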