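import Pool.Agent.Lib.MP_f00570_lc.Defs

/-!
# Few traces and local preservation of stationary sets
-/

namespace Pool.Agent.Lib.MP_f00570_lc

open Pool.Agent.Lib.MP_f9eb18_lc Pool.Agent.Lib.MP_f9eb18_lc.W Ordinal ZFSet

/-- The sets of `N` have at most `ℵ₁` traces on every countable set (countability and `ℵ₁` are
those of the universe). -/
def Trace (N : Set V) : Prop :=
  ∀ x : V, (x : Set V).Countable →
    Cardinal.mk {b : V // ∃ d ∈ N, b = d ∩ x} ≤ Cardinal.aleph 1

/-- `ζ` is a limit ordinal with a cofinal subset in `N` that has at most `ℵ₁` elements, that is,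
the cofinality of `ζ` in `N` is below the `ω₂` of the universe. -/
def SmCof (N : Set V) (ζ : Ordinal.{0}) : Prop :=
  ∃ b ∈ N, b.card ≤ Cardinal.aleph 1 ∧ AccPt b ζ

/-- Local preservation of stationary sets: every `η` of cofinality `ω₁` has a subset `S ∈ N` of
points of small cofinality in `N`, stationary in `η` in `N`, such that every `T ∈ N`, `T ⊆ S`,
that is stationary in `η` in `N` is stationary in `η` in the universe. -/
def LocPres (N : Set V) : Prop :=
  ∀ η : Ordinal.{0}, η.cof = Cardinal.aleph 1 → ∃ S ∈ N,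
    (∀ x ∈ S, ∃ ζ < η, x = ζ.toZFSet ∧ SmCof N ζ) ∧ Stat N S η ∧
      ∀ T ∈ N, T ⊆ S → Stat N T η → Stat Set.univ T η

end Pool.Agent.Lib.MP_f00570_lc
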