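import Pool.Agent.Lib.MP_f00570_lc.S.G1

/-!
# Pressing down along a ladder system
-/

namespace Pool.Agent.Lib.MP_f00570_lc

open Pool.Agent.Lib.MP_f9eb18_lc Pool.Agent.Lib.MP_f9eb18_lc.W Ordinal ZFSet
set_option linter.style.haveILetI false
set_option linter.unusedVariables false

/-- the closure points of a map form a club -/
theorem sf1_club {κ : Cardinal.{0}} (hκ : κ.IsRegular) (h0 : Cardinal.aleph0 < κ)
    {g : Ordinal.{0} → Ordinal.{0}} (hg : ∀ α < κ.ord, g α < κ.ord) :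
    ∃ c, Club c κ.ord ∧ ∀ ζ : Ordinal.{0}, ζ.toZFSet ∈ c → ζ < κ.ord ∧ 0 < ζ ∧ ∀ α < ζ, g α < ζ := by
  have hl : Order.IsSuccLimit κ.ord := Cardinal.isSuccLimit_ord hκ.aleph0_le
  have hc : ∀ o < κ.ord, o.card < κ.ord.cof := fun o ho => by
    rw [hκ.cof_ord]; exact Cardinal.lt_ord.1 ho
  have hγ : Cardinal.aleph0 < κ.ord.cof := by rwa [hκ.cof_ord]
  generalize κ.ord = γ at hl hc hγ hg
  obtain ⟨c, hc'⟩ : ∃ c, c = ZFSet.sep (fun x => 0 < x.rank ∧ ∀ α < x.rank, g α < x.rank)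
    γ.toZFSet := ⟨_, rfl⟩
  have m : ∀ ζ : Ordinal.{0}, ζ.toZFSet ∈ c ↔ ζ < γ ∧ 0 < ζ ∧ ∀ α < ζ, g α < ζ := fun ζ => by
    rw [hc', mem_sep, toZFSet_mem_toZFSet_iff, rank_toZFSet]
  refine ⟨c, ⟨fun x hx => (mem_sep.1 (hc' ▸ hx)).1, ⟨hl.pos, fun ξ hξ => ?_⟩,
    fun ζ h1 h2 => (m ζ).2 ⟨h1, h2.1, fun α hα => ?_⟩⟩, fun ζ => (m ζ).1⟩
  · set u := fun x : Ordinal.{0} => osup (x + 1).toZFSet fun b => max x (g b.rank) + 1 with hu
    have k : ∀ x y, y ≤ x → max x (g y) < u x := fun x y h => by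
      have := le_osup (fun b => max x (g b.rank) + 1)
        (toZFSet_mem_toZFSet_iff.2 (Order.lt_add_one_iff.2 h))
      rw [rank_toZFSet] at this
      exact (lt_add_one _).trans_le this
    obtain ⟨ζ, h1, h2, h3⟩ := b3_iter hγ (g := u) (fun x hx =>
      ⟨(le_max_left _ _).trans_lt (k x x le_rfl),
        b3_osup_lt (hc _ (hl.add_one_lt hx)) fun b hb => by
          obtain ⟨y, hy, rfl⟩ := mem_toZFSet_iff.1 hb
          rw [rank_toZFSet]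
          exact hl.add_one_lt (max_lt hx (hg y (hy.trans (hl.add_one_lt hx))))⟩) hξ
    refine ⟨ζ, h1, h2 0, (m ζ).2 ⟨h1, zero_le.trans_lt (h2 0), fun α hα => ?_⟩⟩
    obtain ⟨n, hn, -⟩ := h3 α hα
    have := h2 (n + 1)
    rw [Function.iterate_succ_apply'] at this
    exact ((le_max_right _ _).trans_lt (k _ α hn.le)).trans this
  · obtain ⟨η, k1, k2, k3⟩ := h2.2 α hα
    exact (((m η).1 k3).2.2 α k2).trans k1

/-- pressing down along a ladder system -/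
theorem ladder_fodor {lam α : Ordinal.{0}} (hl : Reg lam) (hα : α < lam) {S G : V}
    (hS : Stat Set.univ S lam)
    (hG : ∀ ζ < lam, ζ.toZFSet ∈ S → AccPt (app G ζ.toZFSet) ζ) : ∃ β < lam, α < β ∧
      Stat Set.univ (ZFSet.sep (fun x => β.toZFSet ∈ x ∧ β.toZFSet ∈ app G x) S) lam := by
  obtain ⟨κ, hκ, h2, rfl⟩ := reg_iff.1 hl
  have h0 : Cardinal.aleph0 < κ := (Cardinal.aleph0_le_aleph 2).trans_lt h2
  have hs : Order.IsSuccLimit κ.ord := Cardinal.isSuccLimit_ord hκ.aleph0_le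
  have hc : ∀ o < κ.ord, o.card < κ.ord.cof := fun o ho => by
    rw [hκ.cof_ord]; exact Cardinal.lt_ord.1 ho
  by_contra hn
  have k : ∀ β : Ordinal.{0}, ∃ c, AccPt c κ.ord ∧ (β < κ.ord → α < β → Club c κ.ord ∧
      ∀ x ∈ ZFSet.sep (fun x => β.toZFSet ∈ x ∧ β.toZFSet ∈ app G x) S, x ∉ c) := fun β => by
    by_cases h1 : β < κ.ord ∧ α < β
    · by_contra h3
      refine hn ⟨β, h1.1, h1.2, fun c _ h4 => ?_⟩
      by_contra h5
      exact h3 ⟨c, h4.2.1, fun _ _ => ⟨h4, fun x h6 h7 => h5 ⟨x, h6, h7⟩⟩⟩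
    · exact ⟨κ.ord.toZFSet, ⟨hs.pos, fun ξ hξ => ⟨_, hs.succ_lt hξ, Order.lt_succ ξ,
        toZFSet_mem_toZFSet_iff.2 (hs.succ_lt hξ)⟩⟩, fun a b => absurd ⟨a, b⟩ h1⟩
  choose C C1 C2 using k
  obtain ⟨c, c1, c2⟩ := sf1_club hκ h0
    (g := fun x => max α (osup (x + 1).toZFSet fun b => b3_nx κ.ord (C b.rank) x))
    fun x hx => max_lt hα (b3_osup_lt (hc _ (hs.add_one_lt hx))
      fun b _ => (b3_nx_spec (C1 _) hx).1)
  obtain ⟨x, hx, hxc⟩ := hS c trivial c1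
  obtain ⟨ζ, -, rfl⟩ := mem_toZFSet_iff.1 (c1.1 hxc)
  obtain ⟨z1, z0, z2⟩ := c2 ζ hxc
  obtain ⟨η, e1, e2, e3⟩ := (hG ζ z1 hx).2 α ((le_max_left _ _).trans_lt (z2 0 z0))
  obtain ⟨d1, d2⟩ := C2 η (e1.trans z1) e2
  refine d2 _ (mem_sep.2 ⟨hx, toZFSet_mem_toZFSet_iff.2 e1, e3⟩)
    (d1.2.2 ζ z1 ⟨z0, fun y hy => ?_⟩)
  have h4 := max_lt hy e1
  have h5 := b3_nx_spec (C1 η) (h4.trans z1)
  have h6 := le_osup (fun b => b3_nx κ.ord (C b.rank) (max y η))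
    (toZFSet_mem_toZFSet_iff.2 (Order.lt_add_one_iff.2 (le_max_right y η)))
  rw [rank_toZFSet] at h6
  exact ⟨_, (h6.trans (le_max_right _ _)).trans_lt (z2 _ h4),
    (le_max_left _ _).trans_lt h5.2.1, h5.2.2⟩

end Pool.Agent.Lib.MP_f00570_lc
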