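import Pool.Agent.Lib.MP_f00570_lc.S.G2
import Pool.Agent.Lib.MP_f00570_lc.S.F1

/-!
# A set of `N` that is cofinal in the trace of a guessing set
-/

namespace Pool.Agent.Lib.MP_f00570_lc

open Pool.Agent.Lib.MP_f9eb18_lc Pool.Agent.Lib.MP_f9eb18_lc.W Ordinal ZFSet
set_option linter.style.haveILetI false
set_option linter.unusedVariables false

/-- a stationary set meets the common accumulation points of two unbounded sets -/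
theorem sf2_meet {T c d : V} {γ : Ordinal.{0}} (hγ : Cardinal.aleph0 < γ.cof)
    (hT : Stat Set.univ T γ) (hc : AccPt c γ) (hd : AccPt d γ) :
    ∃ ζ < γ, ζ.toZFSet ∈ T ∧ AccPt c ζ ∧ AccPt d ζ := by
  obtain ⟨x, h1, h2⟩ := hT (accs c γ ∩ accs d γ) trivial
    ⟨fun x hx => (mem_sep.1 (mem_inter.1 hx).1).1, ⟨hc.1, fun ξ hξ => by
      obtain ⟨ζ, k1, k2, k3, b, k4, -, k5⟩ := exists_acc2 hγ hc hd hξ
      exact ⟨ζ, k1, k2, mem_inter.2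
        ⟨mem_accs.2 ⟨k1, k3⟩, mem_accs.2 ⟨k1, k5.mono fun _ _ k => k4 k⟩⟩⟩⟩,
      fun ζ k1 k2 => mem_inter.2
        ⟨(club_accs hγ hc).2.2 ζ k1 (k2.mono fun _ _ k => (mem_inter.1 k).1),
          (club_accs hγ hd).2.2 ζ k1 (k2.mono fun _ _ k => (mem_inter.1 k).2)⟩⟩
  obtain ⟨h3, h4⟩ := mem_inter.1 h2
  obtain ⟨ζ, k, rfl⟩ := mem_toZFSet_iff.1 (mem_sep.1 h3).1
  exact ⟨ζ, k, h1, (mem_accs.1 h3).2, (mem_accs.1 h4).2⟩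

variable {N : Set V} {M z : V} [IsZFC N] [ES M] [UC (par M) (fun _ _ => N)] {lam : Ordinal.{0}}

theorem Ctx2.cofinal (h : Ctx2 N M z) (hP : LocPres N) (hl : Reg lam) (hM : lam.toZFSet ∈ M)
    (hz : lam.toZFSet ⊆ z) :
    (∃ S : V, Stat Set.univ S lam ∧ ∀ ζ : Ordinal.{0}, ζ.toZFSet ∈ S → SmCof N ζ) ∧
      ∃ Z ∈ N, Z ⊆ M ∩ lam.toZFSet ∧ AccPt Z (M ∩ lam.toZFSet).rank := by
  have hcl := hl.cof
  have hlim : Order.IsSuccLimit lam := one_lt_cof_iff.1 (Cardinal.one_lt_aleph0.trans hcl)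
  haveI : In (M : Set V) lam := ⟨hM⟩
  obtain ⟨η, hη⟩ : ∃ η, η = (M ∩ lam.toZFSet).rank := ⟨_, rfl⟩
  rw [← hη]
  haveI : In N η := ⟨h.ord η⟩
  obtain ⟨hηl, hlt, hA, hcη⟩ := eta_spec h.om1 h.iu hlim hcl hM hη
  obtain ⟨hc1, D, hDM, hD, hDc⟩ := eta_club h.sm hA hcη
  obtain ⟨S, hSN, hS1, hS2, hS3⟩ := hP η hc1
  haveI : In N S := ⟨hSN⟩
  have hSc : ∀ ζ : Ordinal.{0}, ζ.toZFSet ∈ S → SmCof N ζ := fun ζ k => by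
    obtain ⟨ζ', -, e, k1⟩ := hS1 _ k
    rwa [toZFSet_injective e]
  have meet : ∀ T ∈ N, T ⊆ S → Stat N T η → ∀ c, AccPt c η →
      ∃ ζ < η, ζ.toZFSet ∈ T ∧ ζ.toZFSet ∈ M ∧ AccPt c ζ := fun T k1 k2 k3 c hc => by
    obtain ⟨ζ, j1, j2, j3, j4⟩ := sf2_meet hcη (hS3 T k1 k2 k3) hc hD
    exact ⟨ζ, j1, j2, omega_closed h.om1 h.iu (hDc ζ j1) (fun x hx => hDM (mem_inter.1 hx).1)
      (j4.mono fun _ a b => mem_inter.2 ⟨b, toZFSet_mem_toZFSet_iff.2 a⟩) (j1.le.trans hηl) hM, j3⟩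
  obtain ⟨S1, hS1M, hg⟩ := h.gN S hSN fun x hx => by
    obtain ⟨ζ, k, rfl, -⟩ := hS1 x hx
    exact hz (toZFSet_mem_toZFSet_iff.2 (k.trans_le hηl))
  haveI : In (M : Set V) S1 := ⟨hS1M⟩
  have hst : Stat Set.univ S1 lam := fun c _ =>
    all_of M (fun c => Club c lam → ∃ x ∈ S1, x ∈ c) (fun c hc hcc => by
      haveI : In (M : Set V) c := ⟨hc⟩
      obtain ⟨ζ, k1, k2, k3, k4⟩ := meet S hSN subset_rfl hS2 c ⟨hA.1, fun ξ hξ => by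
        obtain ⟨ξ', j1, j2, j3⟩ := hA.2 ξ hξ
        haveI : In (M : Set V) ξ' := ⟨j3⟩
        obtain ⟨τ, j4, j5, j6, j7⟩ := ex_ord M (fun τ => τ < lam ∧ ξ' < τ ∧ τ.toZFSet ∈ c)
          (hcc.2.1.2 ξ' (j1.trans_le hηl))
        exact ⟨τ, hlt τ j5 j4, j2.trans j6, j7⟩⟩
      exact ⟨_, (hg _ k3).2 k2, hcc.2.2 ζ (k1.trans_le hηl) k4⟩) c
  have hsc : ∀ ζ : Ordinal.{0}, ζ.toZFSet ∈ S1 → SmCof N ζ :=
    all_ord M _ fun ζ k1 k2 => hSc ζ ((hg _ k1).1 k2)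
  refine ⟨⟨S1, hst, hsc⟩, ?_⟩
  obtain ⟨G, hGM, hGN, hL⟩ := ex_mem M (fun G => G ∈ N ∧ ∀ ζ < lam, SmCof N ζ →
    Sm (app G ζ.toZFSet) ∧ AccPt (app G ζ.toZFSet) ζ) (exists_ladder2 N h.ord lam)
  haveI : In (M : Set V) G := ⟨hGM⟩
  haveI : In N G := ⟨hGN⟩
  have hlad : ∀ ζ < lam, SmCof N ζ → ζ.toZFSet ∈ M → app G ζ.toZFSet ⊆ M := fun ζ k1 k2 k3 => by
    haveI : In (M : Set V) ζ := ⟨k3⟩
    exact sm_subset h.om1 (memM M _) (hL ζ k1 k2).1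
  refine ⟨ZFSet.sep (fun b => Stat N (ZFSet.sep (fun x => b ∈ x ∧ b ∈ app G x) S) η) η.toZFSet,
    sep_mem N _ (h.ord η), fun b hb => ?_, hA.1, fun ξ hξ => ?_⟩
  · obtain ⟨k1, k2⟩ := mem_sep.1 hb
    haveI : In N b := ⟨IsZ.trans _ (h.ord η) _ k1⟩
    obtain ⟨ζ, j1, j2, j3, -⟩ := meet _ (memV_of N _) (fun x hx => (mem_sep.1 hx).1) k2 M hA
    obtain ⟨j4, -, j5⟩ := mem_sep.1 j2
    exact mem_inter.2 ⟨hlad ζ (j1.trans_le hηl) (hSc ζ j4) j3 j5, toZFSet_monotone hηl k1⟩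
  obtain ⟨α, a1, a2, a3⟩ := hA.2 ξ hξ
  haveI : In (M : Set V) α := ⟨a3⟩
  obtain ⟨β, hβM, b1, b2, hs⟩ := ex_ord M (fun β => β < lam ∧ α < β ∧ Stat Set.univ
      (ZFSet.sep (fun x => β.toZFSet ∈ x ∧ β.toZFSet ∈ app G x) S1) lam)
    (ladder_fodor hl (a1.trans_le hηl) hst fun ζ k1 k2 => (hL ζ k1 (hsc ζ k2)).2)
  refine ⟨β, hlt β b1 hβM, a2.trans b2,
    mem_sep.2 ⟨toZFSet_mem_toZFSet_iff.2 (hlt β b1 hβM), fun c hc hcc => ?_⟩⟩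
  obtain ⟨e, heM, he⟩ := h.gN c hc fun x hx => hz (toZFSet_monotone hηl (hcc.1 hx))
  haveI : In (M : Set V) e := ⟨heM⟩
  haveI : In (M : Set V) β := ⟨hβM⟩
  have hel : AccPt e lam := by
    refine ⟨hlim.bot_lt, all_ord M (fun ξ => ξ < lam → ∃ η < lam, ξ < η ∧ η.toZFSet ∈ e)
      fun ξ k1 k2 => ?_⟩
    obtain ⟨ζ, j1, j2, j3, b, j4, j5, j6⟩ := exists_acc2 hcη hcc.2.1 hA (hlt ξ k2 k1)
    exact ⟨ζ, j1.trans_le hηl, j2,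
      (he _ (omega_closed h.om1 h.iu j5 j4 j6 (j1.le.trans hηl) hM)).2 (hcc.2.2 ζ j1 j3)⟩
  obtain ⟨ζ, hζM, k1, ⟨k2, k3⟩, k5⟩ := ex_ord M (fun ζ => ζ < lam ∧ (ζ.toZFSet ∈ S1 ∧
      β.toZFSet ∈ ζ.toZFSet ∧ β.toZFSet ∈ app G ζ.toZFSet) ∧ AccPt e ζ)
    ((sf2_meet hcl hs hel hel).imp fun ζ k => ⟨k.1, mem_sep.1 k.2.1, k.2.2.1⟩)
  haveI : In (M : Set V) ζ := ⟨hζM⟩
  refine ⟨_, mem_sep.2 ⟨(hg _ hζM).1 k2, k3⟩, hcc.2.2 ζ (hlt ζ k1 hζM) ⟨k5.1, fun ξ hξ => ?_⟩⟩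
  obtain ⟨ξ', j1, j2, j3⟩ := (hL ζ k1 (hsc ζ k2)).2.2 ξ hξ
  haveI : In (M : Set V) ξ' := ⟨hlad ζ k1 (hsc ζ k2) hζM j3⟩
  obtain ⟨τ, j4, j5, j6, j7⟩ := ex_ord M (fun τ => τ < ζ ∧ ξ' < τ ∧ τ.toZFSet ∈ e) (k5.2 ξ' j1)
  exact ⟨τ, j5, j2.trans j6, (he _ j4).1 j7⟩

end Pool.Agent.Lib.MP_f00570_lc
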