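import Pool.Agent.Lib.MP_f00570_lc.S.Defs
import Pool.Agent.Lib.MP_f00570_lc.B2
import Pool.Agent.Lib.MP_f00570_lc.C0

/-!
# Carriers and the inner model
-/

namespace Pool.Agent.Lib.MP_f00570_lc

open Pool.Agent.Lib.MP_f9eb18_lc Pool.Agent.Lib.MP_f9eb18_lc.W Ordinal ZFSet
set_option linter.style.haveILetI false
set_option linter.unusedVariables false

/-- the standing assumptions on `N`, `M`, `z` -/
structure Ctx2 (N : Set V) (M z : V) : Prop where
  ord : ∀ o : Ordinal.{0}, o.toZFSet ∈ N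
  om1 : omega1Z ⊆ M
  sm : Sm M
  iu : ∀ x : Set V, x.Countable → x ⊆ M → ∃ y ∈ M, (y : Set V).Countable ∧ x ⊆ y
  gN : ∀ d ∈ N, d ⊆ z → ∃ e ∈ M, ∀ t ∈ M, (t ∈ e ↔ t ∈ d)

/-- `lam` is a regular cardinal above `ω₂` -/
def Reg (lam : Ordinal.{0}) : Prop :=
  (¬ ∃ o : Ordinal.{0}, (∀ β < o, Sm β.toZFSet) ∧ lam ≤ o) ∧ ∀ β < lam, ∀ f : V,
    IsFunc β.toZFSet lam.toZFSet f → ∃ γ < lam, ∀ x y, pair x y ∈ f → y ∈ γ.toZFSet

/-- `e` is an approximated unbounded subset of `lam`, closed at points of small cofinality -/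
def Ecl (N : Set V) (lam : Ordinal.{0}) (e : V) : Prop :=
  e ⊆ lam.toZFSet ∧ Apx N e ∧ AccPt e lam ∧ ∀ ζ < lam, SmCof N ζ → AccPt e ζ → ζ.toZFSet ∈ e

/-- `y` has an approximated code on `e ∪ {lam}` -/
def Cod (N : Set V) (lam : Ordinal.{0}) (e y : V) : Prop :=
  ∃ E : V, E ⊆ memR (insert lam.toZFSet e) ∧ Apx N E ∧ ∃ ξ : Ordinal.{0}, y = col E ξ.toZFSet

/-- the sets coded on all carriers in `lam` -/
def Kl (N : Set V) (lam : Ordinal.{0}) : Set V := {y | ∀ e : V, Ecl N lam e → Cod N lam e y}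

/-- the inner model -/
def KK (N : Set V) : Set V :=
  {y | ∃ α : Ordinal.{0}, ∀ lam : Ordinal.{0}, α < lam → Reg lam → y ∈ Kl N lam}

section
variable {C : Set V} [Z0 C] {N : Set V} [UC (par C) (fun _ _ => N)]
  {a b : Set V → (ℕ → V) → V} {o : Set V → (ℕ → V) → Ordinal.{0}}
instance ud_smCof [UF (par C) o] : UD (par C) (fun M v => SmCof N (o M v)) :=
  haveI := UF.lift (F := par C) o
  (inferInstance : UD (par C) (fun M v => ∃ b ∈ N, Sm b ∧ AccPt b (o M v))).congr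
    fun _ _ _ _ => by simp only [SmCof, sm_iff]
omit [UC (par C) (fun _ _ => N)] in
instance ud_reg [UF (par C) o] : UD (par C) (fun M v => Reg (o M v)) := by
  have := UF.lift (F := par C) o; unfold Reg; infer_instance
instance ud_ecl [UF (par C) o] [UF (par C) a] :
    UD (par C) (fun M v => Ecl N (o M v) (a M v)) := by
  have := UF.lift (F := par C) o; have := UF.lift (F := par C) a; unfold Ecl; infer_instance
instance ud_cod [UF (par C) o] [UF (par C) a] [UF (par C) b] :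
    UD (par C) (fun M v => Cod N (o M v) (a M v) (b M v)) := by
  have := UF.lift (F := par C) o; have := UF.lift (F := par C) a; have := UF.lift (F := par C) b
  unfold Cod; infer_instance
instance uc_kl [UF (par C) o] : UC (par C) (fun M v => Kl N (o M v)) :=
  ⟨fun _ e _ _ => e ▸ Set.subset_univ _, by
    have := UF.lift (F := par C) o
    simp only [Kl, Set.mem_ofPred_eq]; infer_instance⟩
instance uc_kk : UC (par C) (fun _ _ => KK N) :=
  ⟨fun _ e _ _ => e ▸ Set.subset_univ _, by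
    simp only [KK, Set.mem_ofPred_eq]; infer_instance⟩
end

/-- the reflection properties of `M` below rank `γ`, for a class `K` -/
structure Refl0 (N K : Set V) (M : V) (γ : Ordinal.{0}) : Prop where
  γM : γ.toZFSet ∈ M
  om1 : omega1Z ⊆ M
  sm : Sm M
  mr : ∀ y ∈ M, y.rank < γ → (y ∈ K ↔ pi M y ∈ N)
  onto : ∀ t ∈ N, t.rank < (pi M γ.toZFSet).rank → ∃ y ∈ M, pi M y = t
  plus : ∀ σ ∈ K, σ.rank < γ → ∃ U ∈ N, ∀ t,
    t ∈ U ↔ ∃ y ∈ M, y ∈ K ∧ y.rank < γ ∧ σ ∈ y ∧ pi M y = t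

/-- reflecting sets exist for all parameters -/
def HasRefl2 (N K : Set V) : Prop := ∀ (l : List V) (γ : Ordinal.{0}),
  ∃ (M : V) (_ : ES M) (_ : UC (par M) (fun _ _ => K)), (∀ x ∈ l, x ∈ M) ∧ Refl0 N K M γ ∧
    ∀ o < γ, M ∩ o.toZFSet ∈ K

end Pool.Agent.Lib.MP_f00570_lc
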