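import Pool.Agent.Lib.MP_f00570_lc.S.G
import Pool.Agent.Lib.MP_f00570_lc.D1

/-!
# Regular cardinals; guessing of the sets of `N`
-/

namespace Pool.Agent.Lib.MP_f00570_lc

open Pool.Agent.Lib.MP_f9eb18_lc Pool.Agent.Lib.MP_f9eb18_lc.W Ordinal ZFSet
set_option linter.style.haveILetI false
set_option linter.unusedVariables false

theorem ctx2_of_gset {N : Set V} (hN : InnerModel N) (hT : Trace N) {z M : V}
    {op : List V → Set V} [ES M] [UC (par M) (fun _ _ => N)] (hM : GSet z op M) :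
    Ctx2 N M z := by
  refine ⟨hN.ord, hM.om1, sm_iff.2 hM.card, hM.iu, fun d hd hz => hM.guess d hz fun x hx hc => ?_⟩
  haveI : In (M : Set V) x := ⟨hx⟩
  obtain ⟨T, hTM, hT'⟩ := ex_mem M (fun T => ∀ b, b ∈ T ↔ ∃ d ∈ N, b = d ∩ x)
    ⟨ZFSet.sep (fun b => ∃ d ∈ N, b = d ∩ x) (powerset x), fun b => by
      rw [mem_sep, mem_powerset]
      exact ⟨fun k => k.2, fun k => ⟨by
        obtain ⟨d, -, rfl⟩ := k
        exact fun t ht => (mem_inter.1 ht).2, k⟩⟩⟩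
  refine sm_subset hM.om1 hTM ?_ ((hT' _).2 ⟨d, hd, rfl⟩)
  have h4 : Cardinal.mk T = Cardinal.mk {b : V // ∃ d ∈ N, b = d ∩ x} :=
    Cardinal.mk_congr (Equiv.subtypeEquivRight hT')
  have h5 := hT x hc
  rw [← h4, cardinalMk_coe_sort] at h5
  rw [sm_iff]
  simpa using h5

theorem reg_iff {lam : Ordinal.{0}} :
    Reg lam ↔ ∃ κ : Cardinal.{0}, κ.IsRegular ∧ Cardinal.aleph 2 < κ ∧ lam = κ.ord := by
  constructor
  · rintro ⟨h1, h2⟩
    have h3 : ω_ 2 < lam := lt_of_not_ge fun k => h1 ⟨_, fun β hβ => sm_iff.2 (d1_lt.1 hβ), k⟩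
    have h4 : lam.cof.ord = lam := by
      refine (ord_cof_le lam).eq_of_not_lt fun hlt => ?_
      obtain ⟨f, hf⟩ := exists_blsub_cof lam
      classical
      obtain ⟨γ, k1, k2⟩ := h2 _ hlt (W.lam lam.cof.ord.toZFSet fun x =>
        if h : x.rank < lam.cof.ord then (f x.rank h).toZFSet else ∅) (isFunc_lam fun x hx => by
          obtain ⟨a, ha, rfl⟩ := mem_toZFSet_iff.1 hx
          rw [dif_pos (by rwa [rank_toZFSet])]
          exact toZFSet_mem_toZFSet_iff.2 ((lt_blsub f _ _).trans_eq hf))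
      refine k1.not_ge (hf.ge.trans (blsub_le fun a ha => ?_))
      have k3 := k2 _ _ (pair_mem_lam.2 ⟨toZFSet_mem_toZFSet_iff.2 ha, rfl⟩)
      rw [dif_pos (by rwa [rank_toZFSet])] at k3
      simpa only [rank_toZFSet] using toZFSet_mem_toZFSet_iff.1 k3
    have h5 : Cardinal.aleph 2 < lam.cof := by
      rwa [← Cardinal.ord_lt_ord, h4, Cardinal.ord_aleph]
    exact ⟨lam.cof, ⟨(Cardinal.aleph0_le_aleph 2).trans h5.le, by rw [h4]⟩, h5, h4.symm⟩
  · rintro ⟨κ, h1, h2, rfl⟩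
    have h3 : ω_ 2 < κ.ord := by rwa [← Cardinal.ord_aleph, Cardinal.ord_lt_ord]
    refine ⟨fun ⟨o, k1, k2⟩ => lt_irrefl _ (d1_lt.2 (sm_iff.1 (k1 _ (h3.trans_le k2)))),
      fun β hβ f hf => ?_⟩
    obtain ⟨k1, k2, k3⟩ := isFunc_iff.1 hf
    refine ⟨osup β.toZFSet fun x => (app f x).rank + 1, b3_osup_lt
      (by rw [h1.cof_ord]; exact Cardinal.lt_ord.1 hβ) fun x hx => ?_, fun x y hxy => ?_⟩
    · refine (Cardinal.isSuccLimit_ord h1.aleph0_le).add_one_lt ?_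
      simpa using rank_lt_of_mem (k3 x hx)
    · have hx : x ∈ β.toZFSet := k2 ▸ mem_dom.2 ⟨y, hxy⟩
      have k4 := le_osup (fun x => (app f x).rank + 1) hx
      have k5 := k3 x hx
      rw [k1.app_eq hxy] at k4 k5
      obtain ⟨a, -, rfl⟩ := mem_toZFSet_iff.1 k5
      rw [rank_toZFSet] at k4
      exact toZFSet_mem_toZFSet_iff.2 ((lt_add_one a).trans_le k4)

theorem exists_reg (α : Ordinal.{0}) : ∃ lam, α < lam ∧ Reg lam := by
  refine ⟨_, ?_, reg_iff.2 ⟨Order.succ (max (Cardinal.aleph 2) α.card), Cardinal.isRegular_succ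
    (le_max_of_le_left (Cardinal.aleph0_le_aleph 2)), Order.lt_succ_of_le (le_max_left _ _), rfl⟩⟩
  exact Cardinal.lt_ord.2 (Order.lt_succ_of_le (le_max_right _ _))

theorem Reg.cof {lam : Ordinal.{0}} (h : Reg lam) : Cardinal.aleph0 < lam.cof := by
  obtain ⟨κ, h1, h2, rfl⟩ := reg_iff.1 h
  rw [h1.cof_ord]
  exact (Cardinal.aleph0_le_aleph 2).trans_lt h2

theorem Reg.card_le {lam : Ordinal.{0}} (h : Reg lam) {e : V} (he : AccPt e lam) :
    lam.card ≤ e.card := by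
  obtain ⟨κ, h1, h2, rfl⟩ := reg_iff.1 h
  obtain ⟨f, -, hf⟩ := b2_inj Set.univ h1 (B := e ∩ κ.ord.toZFSet) trivial
    (fun t ht => (mem_inter.1 ht).2) fun α hα => by
      obtain ⟨η, k1, k2, k3⟩ := he.2 α hα
      exact ⟨η, k2.le, mem_inter.2 ⟨k3, toZFSet_mem_toZFSet_iff.2 k1⟩⟩
  rw [← card_toZFSet]
  exact (card_le_of_isInj hf).trans (card_mono fun t ht => (mem_inter.1 ht).1)

theorem kk_trans (N : Set V) : ∀ x ∈ KK N, ∀ y ∈ x, y ∈ KK N := by
  rintro x ⟨α, hα⟩ y hy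
  refine ⟨α, fun lam h1 h2 e he => ?_⟩
  obtain ⟨E, k1, k2, ξ, rfl⟩ := hα lam h1 h2 e he
  by_cases h : AccP (preds E) ξ.toZFSet
  · obtain ⟨u, hu, rfl⟩ := (mem_col h).1 hy
    rcases mem_insert_iff.1 (z4c_memR.1 (k1 hu)).1 with rfl | k3
    · exact ⟨E, k1, k2, lam, rfl⟩
    · obtain ⟨p, -, rfl⟩ := mem_toZFSet_iff.1 (he.1 k3)
      exact ⟨E, k1, k2, p, rfl⟩
  · rw [col, grec_of_not _ h] at hy
    exact absurd hy (notMem_empty y)

end Pool.Agent.Lib.MP_f00570_lc
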