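import Pool.Agent.Lib.MP_f00570_lc.S.G1
import Pool.Agent.Lib.MP_f00570_lc.D1

/-!
# Small cofinality; intersections of carriers
-/

namespace Pool.Agent.Lib.MP_f00570_lc

open Pool.Agent.Lib.MP_f9eb18_lc Pool.Agent.Lib.MP_f9eb18_lc.W Ordinal ZFSet
set_option linter.style.haveILetI false
set_option linter.unusedVariables false

theorem sg2_sm {N : Set V} {a : V} {β : Ordinal.{0}} (hβ : β < ω_ 2)
    (h : InjIn N a β.toZFSet) : Sm a :=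
  let ⟨_, _, hf⟩ := h; sm_iff.2 ((card_le_of_isInj hf).trans (d1_lt.1 hβ))

theorem smN_iff (N : Set V) [IsZFC N] {a : V} (ha : a ∈ N) :
    Sm a ↔ ∃ β < ω_ 2, InjIn N a β.toZFSet := by
  refine ⟨fun h => ?_, fun ⟨β, hβ, h⟩ => sg2_sm hβ h⟩
  obtain ⟨o, ho, f, hf, hi, hr⟩ := exists_ord_bij ha
  refine ⟨o, d1_lt.2 ((card_le_of_isInj hi).trans (sm_iff.1 h)),
    injIn_of_surj hf ho ha fun y hy => ?_⟩
  obtain ⟨x, hx⟩ := mem_ran.1 (hr.symm ▸ hy)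
  obtain ⟨h1, h2, -⟩ := isFunc_iff.1 hi.1
  exact ⟨x, h2 ▸ mem_dom.2 ⟨y, hx⟩, h1.app_eq hx⟩

theorem sg2_ud (N : Set V) [IsZFC N] (hord : ∀ o : Ordinal.{0}, o.toZFSet ∈ N)
    (o : Set V → (ℕ → V) → Ordinal.{0}) [UF (loc N) o] :
    UD (loc N) (fun M v => SmCof N (o M v)) :=
  haveI : In N (ω_ 2 : Ordinal.{0}) := ⟨hord _⟩
  haveI := UF.lift (F := loc N) o
  (inferInstance : UD (loc N) (fun M v =>
    ∃ b ∈ N, (∃ β < ω_ 2, InjIn N b β.toZFSet) ∧ AccPt b (o M v))).congr fun _ _ _ _ =>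
      exists_congr fun _ => and_congr_right fun hb => and_congr_left' (sm_iff.symm.trans (smN_iff N hb))

/-- a ladder system of small cofinal sets in `N` -/
theorem exists_ladder2 (N : Set V) [IsZFC N] (hord : ∀ o : Ordinal.{0}, o.toZFSet ∈ N)
    (lam : Ordinal.{0}) : ∃ G ∈ N, ∀ ζ < lam, SmCof N ζ →
      Sm (app G ζ.toZFSet) ∧ AccPt (app G ζ.toZFSet) ζ := by
  haveI : In N (ω_ 2 : Ordinal.{0}) := ⟨hord _⟩
  haveI := sg2_ud N hord fun _ v => (vr (tl v) 0).rank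
  obtain ⟨G, hG, -, -, k⟩ := choice_fn N
    (fun x y => SmCof N x.rank → (∃ β < ω_ 2, InjIn N y β.toZFSet) ∧ AccPt y x.rank) (hord lam)
    fun x _ => by
      by_cases h1 : SmCof N x.rank
      · exact h1.imp fun _ k => ⟨k.1, fun _ => ⟨(smN_iff N k.1).1 (sm_iff.2 k.2.1), k.2.2⟩⟩
      · exact ⟨∅, IsZ.empty_mem N, fun h2 => absurd h2 h1⟩
  refine ⟨G, hG, fun ζ h1 h2 => ?_⟩
  have h3 := k _ (toZFSet_mem_toZFSet_iff.2 h1)
  rw [rank_toZFSet] at h3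
  obtain ⟨⟨β, h4, h5⟩, h6⟩ := h3 h2
  exact ⟨sg2_sm h4 h5, h6⟩

/-- small cofinality is definable in `N` -/
theorem ud_smCofN (N : Set V) [IsZFC N] (hord : ∀ o : Ordinal.{0}, o.toZFSet ∈ N) :
    ∀ (o : Set V → (ℕ → V) → Ordinal.{0}) [UF (loc N) o],
      UD (loc N) (fun M v => SmCof N (o M v)) := by
  exact sg2_ud N hord

theorem Ecl.inter {N : Set V} [IsZ N] {lam : Ordinal.{0}} (hl : Reg lam) {S e e' : V}
    (hS : Stat Set.univ S lam) (hS' : ∀ ζ : Ordinal.{0}, ζ.toZFSet ∈ S → SmCof N ζ)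
    (h : Ecl N lam e) (h' : Ecl N lam e') : Ecl N lam (e ∩ e') := by
  have m1 : ∀ ζ, AccPt (e ∩ e') ζ → AccPt e ζ := fun ζ k => k.mono fun _ _ j => (mem_inter.1 j).1
  have m2 : ∀ ζ, AccPt (e ∩ e') ζ → AccPt e' ζ := fun ζ k => k.mono fun _ _ j => (mem_inter.1 j).2
  refine ⟨fun x hx => h.1 (mem_inter.1 hx).1, fun a ha hs => ?_, ⟨h.2.2.1.1, fun ξ hξ => ?_⟩,
    fun ζ h1 h2 h3 => mem_inter.2 ⟨h.2.2.2 ζ h1 h2 (m1 ζ h3), h'.2.2.2 ζ h1 h2 (m2 ζ h3)⟩⟩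
  · haveI : In N (e ∩ a) := ⟨h.2.1 a ha hs⟩
    haveI : In N (e' ∩ a) := ⟨h'.2.1 a ha hs⟩
    have k : e ∩ e' ∩ a = (e ∩ a) ∩ (e' ∩ a) := by
      ext x; simp only [mem_inter]; tauto
    rw [k]
    exact memV_of N _
  have mc : ∀ ζ : Ordinal.{0}, ζ.toZFSet ∈ ZFSet.sep
      (fun x => AccPt e x.rank ∧ AccPt e' x.rank ∧ ξ < x.rank) lam.toZFSet ↔
      ζ < lam ∧ AccPt e ζ ∧ AccPt e' ζ ∧ ξ < ζ := fun ζ => by simp
  obtain ⟨x, x1, x2⟩ := hS (ZFSet.sep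
      (fun x => AccPt e x.rank ∧ AccPt e' x.rank ∧ ξ < x.rank) lam.toZFSet) trivial
    ⟨fun x hx => (mem_sep.1 hx).1, ⟨h.2.2.1.1, fun x hx => by
      obtain ⟨ζ, k1, k2, k3, b, k4, -, k5⟩ := exists_acc2 hl.cof h.2.2.1 h'.2.2.1 (max_lt hx hξ)
      exact ⟨ζ, k1, (le_max_left _ _).trans_lt k2, (mc ζ).2
        ⟨k1, k3, k5.mono fun _ _ j => k4 j, (le_max_right _ _).trans_lt k2⟩⟩⟩,
      fun ζ k1 k2 => by
        have k3 : ∀ c : V, (∀ η : Ordinal.{0}, AccPt e η → AccPt e' η → AccPt c η) → AccPt c ζ :=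
          fun c hc => ⟨k2.1, fun x hx => by
            obtain ⟨η, j1, j2, j3⟩ := k2.2 x hx
            exact ((hc η ((mc η).1 j3).2.1 ((mc η).1 j3).2.2.1).2 x j2).imp
              fun _ k => ⟨k.1.trans j1, k.2⟩⟩
        obtain ⟨η, j1, -, j3⟩ := k2.2 0 k2.1
        exact (mc ζ).2 ⟨k1, k3 e fun _ j _ => j, k3 e' fun _ _ j => j,
          ((mc η).1 j3).2.2.2.trans j1⟩⟩
  obtain ⟨ζ, -, rfl⟩ := mem_toZFSet_iff.1 (mem_sep.1 x2).1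
  obtain ⟨k1, k2, k3, k4⟩ := (mc ζ).1 x2
  exact ⟨ζ, k1, k4, mem_inter.2 ⟨h.2.2.2 ζ k1 (hS' ζ x1) k2, h'.2.2.2 ζ k1 (hS' ζ x1) k3⟩⟩

theorem sg2_cof {M : V} {η : Ordinal.{0}} (hM : M.card ≤ Cardinal.aleph 1) (hA : AccPt M η)
    (hc : Cardinal.aleph0 < η.cof) : η.cof = Cardinal.aleph 1 := by
  refine le_antisymm ?_ (by rw [← Cardinal.succ_aleph0]; exact Order.succ_le_of_lt hc)
  have h1 : IsCofinal {x : Set.Iio η | x.1.toZFSet ∈ M} := fun x => by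
    obtain ⟨y, k1, k2, k3⟩ := hA.2 x.1 x.2
    exact ⟨⟨y, k1⟩, k3, k2.le⟩
  have h2 := Order.cof_le h1
  have h3 : Cardinal.mk {x : Set.Iio η | x.1.toZFSet ∈ M} ≤ Cardinal.mk M :=
    Cardinal.mk_le_of_injective (f := fun x => ⟨x.1.1.toZFSet, x.2⟩) fun x y e =>
      Subtype.ext (Subtype.ext (toZFSet_injective (congrArg Subtype.val e)))
  rw [cof_Iio, ← lift_cof] at h2
  rw [cardinalMk_coe_sort] at h3
  exact (Cardinal.lift_le.1 (h2.trans h3)).trans hM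

/-- the supremum of a small unbounded trace has cofinality `ω₁` and the trace contains a club -/
theorem eta_club {M : V} {η : Ordinal.{0}} (hM : Sm M) (hA : AccPt M η)
    (hc : Cardinal.aleph0 < η.cof) : η.cof = Cardinal.aleph 1 ∧ ∃ D ⊆ M, AccPt D η ∧
      ∀ ζ < η, ((D ∩ ζ.toZFSet : V) : Set V).Countable := by
  have h0 := sg2_cof (sm_iff.1 hM) hA hc
  obtain ⟨f, hf⟩ := exists_isFundamentalSeq (o := η) (a := ω₁) (by rw [h0, Cardinal.ord_aleph])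
  let F : Set.Iio (ω₁ : Ordinal.{0}) → V := fun i => (b3_nx η M (f i).1).toZFSet
  have k := fun i => b3_nx_spec hA (f i).2
  refine ⟨h0, ZFSet.sep (fun x => x ∈ Set.range F) M, fun x hx => (mem_sep.1 hx).1,
    ⟨hA.1, fun ξ hξ => ?_⟩, fun ζ hζ => ?_⟩
  · obtain ⟨_, ⟨i, rfl⟩, hi⟩ := hf.isCofinal_range ⟨ξ, hξ⟩
    exact ⟨_, (k i).1, lt_of_le_of_lt hi (k i).2.1, mem_sep.2 ⟨(k i).2.2, i, rfl⟩⟩
  · obtain ⟨_, ⟨i, rfl⟩, hi⟩ := hf.isCofinal_range ⟨ζ, hζ⟩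
    have h1 : (Set.Iio i.1).Countable := by
      rw [← Cardinal.le_aleph0_iff_set_countable, Cardinal.mk_Iio_ordinal, Cardinal.lift_le_aleph0,
        ← Order.lt_succ_iff, Cardinal.succ_aleph0, ← Cardinal.lt_ord, Cardinal.ord_aleph]
      exact i.2
    refine ((h1.preimage Subtype.val_injective).image F).mono fun x hx => ?_
    obtain ⟨h2, h3⟩ := mem_inter.1 hx
    obtain ⟨j, rfl⟩ := (mem_sep.1 h2).2
    have h4 : f j < f i := ((k j).2.1.trans (toZFSet_mem_toZFSet_iff.1 h3)).trans_le hi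
    exact ⟨j, hf.strictMono.lt_iff_lt.1 h4, rfl⟩

end Pool.Agent.Lib.MP_f00570_lc
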