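import Pool.Agent.Lib.MP_f00570_lc.A4
import Pool.Agent.Lib.MP_f00570_lc.S.I
import Pool.Agent.Lib.MP_f00570_lc.S.J

/-!
# The main theorem, strong form
-/

namespace Pool.Agent.Lib.MP_f00570_lc

open Pool.Agent.Lib.MP_f9eb18_lc Pool.Agent.Lib.MP_f9eb18_lc.W Ordinal ZFSet

theorem main3 (hP : PFA) (N : Set V) (hN : InnerModel N) (hT : Trace N) (hL : LocPres N) :
    ∃ K : Set V, InnerModel K ∧ Supercompact K (ω_ 2) := by
  have h := hasRefl2 (gm_of_pfa hP) hN hT hL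
  have := hN.zfc
  have := h.zfc hN.ord (kk_trans N)
  exact ⟨KK N, ⟨this, h.ord hN.ord, kk_defn hN⟩, h.supercompact hN.ord⟩

end Pool.Agent.Lib.MP_f00570_lc
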